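import Mathlib
import Pool.Agent.H451.XP.Def

/-!
# Cubic twists of products of diagonal cubics: definitions

`K = ℚ(√-3)`, `X = V × Y_1 × ⋯ × Y_r` as in `Pool.Agent.H451.XP.Def`, with coefficients `a_i`, `b_{t,i}`; the
twist `X_D` of `X` by `D` is the product with `D a_(i₀)` in the place of `a_(i₀)`: it is the cubic twist of the
cyclic cover of degree three of the projective space given by the coordinate `x_(i₀)` of `V`.
-/

set_option autoImplicit false

namespace Pool.Agent.H451.OP.Tw

open NumberField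
open Pool.Agent.H451.XP
open scoped Classical

/-- The coefficients of the twist of `V`: `D a_(i₀)` in the place of `a_(i₀)`. -/
def twist {R : Type} [CommRing R] {m : ℕ} (a : Fin m → R) (i₀ : Fin m) (D : R) : Fin m → R :=
  fun i => if i = i₀ then D * a i else a i

/-- The indices `q = (S, τ)` of the curves `E_{S,τ}` of a product. -/
abbrev Ind (m : ℕ) {r : ℕ} (n : Fin r → ℕ) : Type := Idx m × ∀ t, Ty (n t)

/-- `u ^ 3 x = v ^ 3 y` with `u, v ≠ 0`: `x` and `y` have the same class modulo the cubes of the field. -/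
def SameClass {R : Type} [CommRing R] (x y : R) : Prop :=
  ∃ u v : R, u ≠ 0 ∧ v ≠ 0 ∧ u ^ 3 * x = v ^ 3 * y

section
variable {K : Type} [Field K] [NumberField K]

/-- The excluded class modulo nine: `B = 1` modulo `9` up to a unit and an element `1` modulo `3` of norm `1`
modulo `9`; that is, `B ^ 2 = 1` modulo `3` and `N(B) = 1` modulo `9`. -/
def Excluded (B : 𝓞 K) : Prop := (3 : 𝓞 K) ∣ B ^ 2 - 1 ∧ (9 : ℤ) ∣ Algebra.norm ℤ B - 1

variable {m r : ℕ} {n : Fin r → ℕ} (a : Fin m → 𝓞 K) (b : ∀ t : Fin r, Fin (n t) → 𝓞 K)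
  (i₀ : Fin m)

/-- `D` is squarefree and prime to `3` and to all the coefficients. -/
def Adm (D : 𝓞 K) : Prop :=
  Squarefree D ∧ ¬ (3 : ℤ) ∣ Algebra.norm ℤ D ∧ (∀ i, IsCoprime (a i) D) ∧ ∀ t i, IsCoprime (b t i) D

/-- All the admissible `D` of norm at most `X`. -/
def All (X : ℕ) : Set (𝓞 K) := {D | Algebra.norm ℤ D ≤ X ∧ Adm a b D}

/-- The `D` in `All`, not units, for which no parameter of a curve of `X_D` is excluded. -/
def Cls (X : ℕ) : Set (𝓞 K) :=
  {D ∈ All a b X | ¬ IsUnit D ∧ ∀ q : Ind m n, ¬ Excluded (DX (twist a i₀ D) b q.1.1 q.2)}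

/-- The parameter of the curve `q` of `X`, squared if `i₀ ∈ S` (then the curve of `X_D` is the twist by
`D ^ 2`). -/
def par (q : Ind m n) : 𝓞 K :=
  if i₀ ∈ q.1.1 then DX a b q.1.1 q.2 ^ 2 else DX a b q.1.1 q.2

/-- The number of the classes of the parameters `par q` modulo cubes. -/
noncomputable def classes : ℕ :=
  (Set.range fun q : Ind m n => {q' : Ind m n | SameClass (par a b i₀ q) (par a b i₀ q')}).ncard

/-- The number of the pairs `(par q ^ 2 modulo 3, N(par q) modulo 9)`. -/
noncomputable def cells : ℕ :=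
  (Set.range fun q : Ind m n => (Ideal.Quotient.mk (Ideal.span {(3 : 𝓞 K)}) (par a b i₀ q ^ 2),
    ((Algebra.norm ℤ (par a b i₀ q) : ℤ) : ZMod 9))).ncard

end

end Pool.Agent.H451.OP.Tw
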