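import Mathlib
import Pool.Agent.H451.OP.Def
import Pool.Graph.R_seed8.Y667.BKP.Def

/-!
# The Abel-Jacobi map at `p = 3` for products of diagonal cubics: definition
-/

set_option autoImplicit false

namespace Pool.Agent.H451.OP.Tw

open NumberField
open Pool.Agent.H451.XP
open Pool.Agent.H451.CubT (E)
open Pool.Agent.TH841.NF.D (Sha)
open Pool.Agent.Y667.BKP (H1f)
open scoped Classical

/-- For all the curves `E_{S,τ}` of `X = V × Y_1 × ⋯ × Y_r`: the group of the points over `K` is finite, the
`3`-primary part of the Tate-Shafarevich group is trivial, and `H¹_f(K, V_3(E_{S,τ})) = 0`. Since the motive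
`h^(2 i - 1)(X)(i)` is the sum of the `h¹(E_{S,τ})(1)` of the classes of codimension `i`, this says that for all
`i` its Abel-Jacobi map at `3` is an isomorphism onto the Selmer group of Bloch and Kato, both being zero. -/
structure IsoAtThree {K : Type} [Field K] [NumberField K] {m r : ℕ} {n : Fin r → ℕ}
    (a : Fin m → 𝓞 K) (b : ∀ t : Fin r, Fin (n t) → 𝓞 K) : Prop where
  /-- the groups of the points -/
  points : ∀ (S : Idx m) (τ : ∀ t, Ty (n t)),
    Finite (E ((DX a b S.1 τ : 𝓞 K) : K)).toAffine.Point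
  /-- the Tate-Shafarevich groups -/
  sha : ∀ (S : Idx m) (τ : ∀ t, Ty (n t)) (k : ℕ) (x : Sha (E ((DX a b S.1 τ : 𝓞 K) : K))),
    3 ^ k • x = 0 → x = 0
  /-- the Selmer groups of Bloch and Kato -/
  selmer : ∀ (S : Idx m) (τ : ∀ t, Ty (n t)) (x : H1f 3 (E ((DX a b S.1 τ : 𝓞 K) : K))), x = 0

end Pool.Agent.H451.OP.Tw
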