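import Mathlib
import Pool.Agent.H451.PV.A2
import Pool.Agent.H451.XP.A5
import Pool.Agent.H462.JL.Ari

/-!
# The `L`-function of an element of corank zero, and all the codimensions of the products
-/

set_option autoImplicit false
set_option linter.unusedSectionVars false
set_option linter.unusedVariables false

namespace Pool.Agent.H451.OP

open NumberField IsDedekindDomain WeierstrassCurve
open Pool.Agent.Y703.CT
open Pool.Agent.Y696 hiding HH RR
open Pool.Agent.Y696.CT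
open Pool.Agent.Y696.CTK hiding toC_w
open Pool.Agent.Y692.QS hiding chi Jc Jc_nr chi_red chi_neg_one
open Pool.Agent.Y715.T.Rec (cs nn)
open Pool.Agent.Y715.T.RecG (Pq)
open Pool.Agent.XL6 (KerV)
open Pool.Agent.H451.BB
open Pool.Agent.H451.PV (plk dk_cube)
open Pool.Agent.H462.CTU.Val (IsHLk)
open Pool.Agent.H462.CTU.LK (Dk gk gk_one gk_mul gk_prim)
open Pool.Agent.H462.CTU.Sel (KW KerC)
open Pool.Agent.H462.JL (bad CorG cor_data kz KW_zero kerC_of ker_of)
open scoped Classical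

section
variable {J : Type} [Fintype J] [Nonempty J] {π : J → Ei} {e : J → ZMod 3} {k : ZMod 3} {D : Ei}

/-- the case `k ≠ 0` -/
theorem pl_ne (hk : k ≠ 0) (hD : Dt π e) (hDk : Dk k π e D) (hK : KerC k π e) : PL D := by
  obtain ⟨F, hF, h1, -⟩ := Pool.Agent.H462.CTU.Main.an_main Pool.Agent.Y350.CT.rec hk hD
    (Pool.Agent.H462.CTU.Crit.kerC_W Pool.Agent.Y350.CT.rec hD hK)
  refine ⟨fun s => F s * (starRingEnd ℂ) (F ((starRingEnd ℂ) s)), diff_conj hF.1, ?_,
    plk hD hDk hF⟩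
  show F 1 * (starRingEnd ℂ) (F ((starRingEnd ℂ) 1)) ≠ 0
  rw [map_one]
  exact mul_ne_zero h1 ((map_ne_zero (starRingEnd ℂ)).2 h1)

/-- the case `k = 0` -/
theorem pl_zero (hD : Dt π e) (hDk : Dk 0 π e D)
    (h9 : ¬ (9 : ℤ) ∣ Pool.Agent.Y692.QS.nr (pD π e) - 1) (hT : Ker π e) : PL D := by
  obtain ⟨F, hF, hval⟩ := val_sq hD h9
  have hF' : IsHLk 0 π (fun i => -e i) F := by
    refine ⟨hF.1, fun s hs => (hF.2 s hs).congr_fun fun α => ?_⟩
    rw [zero_mul, neg_zero, ZMod.val_zero, pow_zero, one_mul]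
  refine ⟨fun s => F s * (starRingEnd ℂ) (F ((starRingEnd ℂ) s)), diff_conj hF.1, ?_,
      plk hD hDk hF'⟩
  obtain ⟨V, hV⟩ := Pool.Agent.Y715.T.Fin.exists_over_three
  obtain ⟨Ω, hΩ, hC⟩ := Pool.Agent.Y696.exists_cur
  obtain ⟨g, -, hg2, -, hg⟩ := hval V.ValueGroup V.valuation hV _ Ω hC
  rw [hg2 hT, mul_one] at hg
  have hl : V.valuation Pool.Agent.Y715.T.Three.lam ≠ 0 := Pool.Agent.Y715.T.Three.lam_ne
  intro h0
  have h0' : F 1 * (starRingEnd ℂ) (F 1) = 0 := by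
    have : F 1 * (starRingEnd ℂ) (F ((starRingEnd ℂ) 1)) = 0 := h0
    rwa [map_one] at this
  rw [h0', zero_div, map_zero, zero_mul] at hg
  exact pow_ne_zero _ (mul_ne_zero hl hl) hg.symm

end

/-- **an element of corank zero** -/
theorem fine {z : Ei} (hz : ¬ bad z) (hu : ¬ IsUnit z) (hr : CorG z 0) :
    PL z ∧ (∀ ρ : Ei, Prime ρ → ¬ ρ ^ 3 ∣ z) ∧ z ≠ 0 := by
  obtain ⟨k, J, _, _, π, e, hdt, hDk, hG, h9⟩ := cor_data hz hu hr
  refine ⟨?_, dk_cube hdt hDk, Pool.Agent.H508.Y.dk_ne hdt hDk⟩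
  by_cases hk : k = 0
  · subst hk
    have hG' : (KerV π e).ncard = 3 := by
      have h1 : kz 0 = 1 := rfl
      rw [KW_zero, h1] at hG
      omega
    exact pl_zero hdt hDk (h9 rfl) (ker_of hG')
  · have hKW : (KW k π e).ncard = 3 := by
      have h1 : kz k = 0 := if_neg hk
      rw [hG, h1]
      norm_num
    exact pl_ne hk hdt hDk (kerC_of hKW)

end Pool.Agent.H451.OP
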