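import Mathlib
import Pool.Agent.H451.OP.P3
import Pool.Agent.H451.PV.A2

/-!
# Classes modulo cubes
-/

set_option autoImplicit false
set_option linter.unusedSectionVars false
set_option linter.unusedVariables false

open scoped Classical

namespace Pool.Agent.H451.OP

open Pool.Agent.Y692.QS (Ei w nr nr_mul ns ns_one ep ep_cases)
open Pool.Agent.Y703.CT
open Pool.Agent.Y715.T.RecG (Pq)
open Pool.Agent.Y699.E
open Pool.Agent.H462.CTU.Chr (nq nq_mul)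
open Pool.Agent.H462.CTU.Law
open Pool.Agent.H462.CTU.Law.Cou (un un_nr un_inj un_isUnit un_ne exists_un el_inj A0)
open Pool.Agent.H462.JL (pe prm_pe sg sg_zero sg_inj un_mul nq_mul' bad bad_el)
open Pool.Agent.H451.PV (fact)

/-- every element prime to three is a unit times a primary element -/
lemma exists_unp {D : Ei} (h : ¬ (3 : ℤ) ∣ nr D) : ∃ (p : Bool × ZMod 3) (n : Ei), prm n ∧
    D = un p * n := by
  have h4 := (ep_cases D h).2
  have h5 : nr (ep D) = 1 := by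
    have := congrArg nr h4
    rw [nr_mul, Pool.Agent.Y692.QS.nr_star, Pool.Agent.Y692.QS.nr_one] at this
    have h6 := Pool.Agent.Y692.QS.nr_nonneg (ep D)
    nlinarith
  obtain ⟨p, hp⟩ := exists_un h5
  refine ⟨p, ns D, ns_one h, ?_⟩
  rw [← hp]
  unfold ns
  rw [← mul_assoc, mul_comm (ep D), h4, one_mul]

lemma not3_prm {n : Ei} (h : prm n) : ¬ (3 : ℤ) ∣ nr n := by
  obtain ⟨a, ha⟩ := prm_nr h
  omega

lemma not3_mul {a b : Ei} (ha : ¬ (3 : ℤ) ∣ nr a) (hb : ¬ (3 : ℤ) ∣ nr b) :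
    ¬ (3 : ℤ) ∣ nr (a * b) := by
  rw [nr_mul]
  intro h
  rcases (Int.prime_three.dvd_mul).1 h with h | h
  · exact ha h
  · exact hb h

lemma not3_pow {a : Ei} (ha : ¬ (3 : ℤ) ∣ nr a) (k : ℕ) : ¬ (3 : ℤ) ∣ nr (a ^ k) := by
  induction k with
  | zero => rw [pow_zero, Pool.Agent.Y692.QS.nr_one]; norm_num
  | succ k ih => rw [pow_succ]; exact not3_mul ih ha

lemma not3_un (p : Bool × ZMod 3) : ¬ (3 : ℤ) ∣ nr (un p) := by
  rw [un_nr]
  norm_num

lemma not3_ne {a : Ei} (ha : ¬ (3 : ℤ) ∣ nr a) : a ≠ 0 := by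
  rintro rfl
  exact ha (by rw [Pool.Agent.Y692.QS.nr_zero_iff.2 rfl]; exact dvd_zero _)

/-- the decomposition -/
theorem dec {R : Finset Ei} (hR : ∀ ρ ∈ R, Pq ρ) {z : Ei} (hz : ¬ (3 : ℤ) ∣ nr z)
    (hRz : ∀ ρ, Pq ρ → ρ ∣ z → ρ ∈ R) : ∃ (c : Ei) (p : Bool × ZMod 3) (f : Ei → ZMod 3),
      ¬ (3 : ℤ) ∣ nr c ∧ z = c ^ 3 * (un p * pe R f) := by
  obtain ⟨u, g, hu, hg, hD⟩ := fact z (not3_ne hz) hz
  obtain ⟨p, hp⟩ := exists_un (Pool.Agent.Y692.QS.isUnit_iff.1 hu)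
  have hsub : g.support ⊆ R := by
    intro ρ hρ
    refine hRz ρ (hg ρ hρ) ?_
    rw [hD]
    refine Dvd.dvd.mul_left ?_ _
    exact (dvd_pow_self ρ (Finsupp.mem_support_iff.1 hρ)).trans
      (Finset.dvd_prod_of_mem (fun ρ => ρ ^ g ρ) hρ)
  refine ⟨∏ ρ ∈ R, ρ ^ (g ρ / 3), p, fun ρ => (g ρ : ZMod 3), ?_, ?_⟩
  · exact not3_prm (Pool.Agent.H462.JL.prm_prod' fun ρ hρ => prm_pow (hR ρ hρ).three _)
  · have h1 : (g.prod fun ρ n => ρ ^ n) = ∏ ρ ∈ R, ρ ^ g ρ :=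
      Finset.prod_subset hsub fun ρ _ h => by
        show ρ ^ g ρ = 1
        rw [Finsupp.notMem_support_iff.1 h, pow_zero]
    rw [hD, h1, hp]
    unfold pe
    rw [← Finset.prod_pow, mul_left_comm, ← Finset.prod_mul_distrib]
    congr 1
    refine Finset.prod_congr rfl fun ρ _ => ?_
    rw [ZMod.val_natCast, ← pow_mul, ← pow_add]
    congr 1
    omega

/-! ### multiplicities -/

lemma mult_pe {R : Finset Ei} (hR : ∀ ρ ∈ R, Pq ρ) (f : Ei → ZMod 3) {ρ : Ei} (hρ : ρ ∈ R) :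
    multiplicity ρ (pe R f) = (f ρ).val := by
  have hp := (hR ρ hρ).prime
  have h1 : pe R f = ρ ^ (f ρ).val * ∏ σ ∈ R.erase ρ, σ ^ (f σ).val := by
    unfold pe
    rw [Finset.mul_prod_erase R (fun σ => σ ^ (f σ).val) hρ]
  have h2 : ¬ ρ ∣ ∏ σ ∈ R.erase ρ, σ ^ (f σ).val := by
    intro h3
    obtain ⟨σ, hσ, h4⟩ := (hp.dvd_finsetProd_iff _).1 h3
    have h5 := eq_of_dvd (hR ρ hρ) (hR σ (Finset.mem_of_mem_erase hσ)) (hp.dvd_of_dvd_pow h4)
    exact (Finset.ne_of_mem_erase hσ) h5.symm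
  apply multiplicity_eq_of_dvd_of_not_dvd
  · rw [h1]
    exact dvd_mul_right _ _
  · rw [h1, pow_succ]
    intro h3
    exact h2 ((mul_dvd_mul_iff_left (pow_ne_zero _ hp.ne_zero)).1 h3)

lemma mult_mul {ρ a b : Ei} (hρ : Prime ρ) (ha : a ≠ 0) (hb : b ≠ 0) :
    multiplicity ρ (a * b) = multiplicity ρ a + multiplicity ρ b :=
  multiplicity_mul hρ (FiniteMultiplicity.of_prime_left hρ (mul_ne_zero ha hb))

lemma mult_pow {ρ a : Ei} (hρ : Prime ρ) (ha : a ≠ 0) (k : ℕ) :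
    multiplicity ρ (a ^ k) = k * multiplicity ρ a :=
  (FiniteMultiplicity.of_prime_left hρ ha).multiplicity_pow hρ

/-- `z` or `z²` -/
def bs (m : Bool) (z : Ei) : Ei := if m then z ^ 2 else z

/-- the same class modulo cubes -/
def Same (m : Bool) (z : Ei) (m' : Bool) (z' : Ei) : Prop :=
  ∃ x y : Ei, ¬ (3 : ℤ) ∣ nr x ∧ ¬ (3 : ℤ) ∣ nr y ∧ x ^ 3 * bs m z = y ^ 3 * bs m' z'

lemma bs_three {m : Bool} {z : Ei} (h : ¬ (3 : ℤ) ∣ nr z) : ¬ (3 : ℤ) ∣ nr (bs m z) := by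
  unfold bs
  split_ifs
  · exact not3_pow h 2
  · exact h

lemma un_cube (p : Bool × ZMod 3) : ∃ b, un p ^ 3 = un (b, 0) := by
  revert p
  decide

lemma un_sq (p : Bool × ZMod 3) : un p ^ 2 = un (false, -p.2) := by
  revert p
  decide

/-- the normal form of `x³ bs z` -/
lemma form {R : Finset Ei} (hR : ∀ ρ ∈ R, Pq ρ) (m : Bool) {x c : Ei} {p : Bool × ZMod 3}
    {f : Ei → ZMod 3} (hx : ¬ (3 : ℤ) ∣ nr x) (hc : ¬ (3 : ℤ) ∣ nr c) :
    ∃ (b : Bool) (y : Ei), prm y ∧ x ^ 3 * bs m (c ^ 3 * (un p * pe R f)) =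
      un (b, sg m p.2) * (y ^ 3 * bs m (pe R f)) := by
  obtain ⟨a, x', hx', rfl⟩ := exists_unp hx
  obtain ⟨d, c', hc', rfl⟩ := exists_unp hc
  obtain ⟨b1, h1⟩ := un_cube a
  obtain ⟨b2, h2⟩ := un_cube d
  cases m
  · refine ⟨xor (xor b1 b2) p.1, x' * c', prm_mul hx' hc', ?_⟩
    have h3 : un (xor (xor b1 b2) p.1, sg false p.2) = un (b1, 0) * un (b2, 0) * un p := by
      rw [un_mul, un_mul]
      simp [sg]
    rw [h3, ← h1, ← h2]
    unfold bs
    simp only [Bool.false_eq_true, if_false]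
    ring
  · refine ⟨b1, x' * c' ^ 2, prm_mul hx' (prm_pow hc' 2), ?_⟩
    have h3 : un (b1, sg true p.2) = un (b1, 0) * (un (b2, 0)) ^ 2 * un p ^ 2 := by
      rw [un_sq, un_sq, un_mul, un_mul]
      simp [sg]
    rw [h3, ← h1, ← h2]
    unfold bs
    simp only [if_true]
    ring

lemma bs_prm {m : Bool} {z : Ei} (h : prm z) : prm (bs m z) := by
  unfold bs
  split_ifs
  · exact prm_pow h 2
  · exact h

lemma mult_bs {R : Finset Ei} (hR : ∀ ρ ∈ R, Pq ρ) (m : Bool) (f : Ei → ZMod 3) {y ρ : Ei}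
    (hy : y ≠ 0) (hρ : ρ ∈ R) :
    ((multiplicity ρ (y ^ 3 * bs m (pe R f)) : ℕ) : ZMod 3) = sg m (f ρ) := by
  have hp := (hR ρ hρ).prime
  have hpe : pe R f ≠ 0 := prm_ne_zero (prm_pe hR f)
  have h3 : ((3 : ℕ) : ZMod 3) = 0 := rfl
  have hv : (((f ρ).val : ℕ) : ZMod 3) = f ρ := ZMod.natCast_zmod_val _
  cases m
  · unfold bs sg
    simp only [Bool.false_eq_true, if_false]
    rw [mult_mul hp (pow_ne_zero _ hy) hpe, mult_pow hp hy, mult_pe hR f hρ, Nat.cast_add,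
      Nat.cast_mul, h3, hv]
    ring
  · unfold bs sg
    simp only [if_true]
    rw [mult_mul hp (pow_ne_zero _ hy) (pow_ne_zero _ hpe), mult_pow hp hy, mult_pow hp hpe,
      mult_pe hR f hρ, Nat.cast_add, Nat.cast_mul, Nat.cast_mul, h3, hv]
    have h4 : ((2 : ℕ) : ZMod 3) = -1 := rfl
    rw [h4]
    ring

/-- **the same class modulo cubes, same data** -/
theorem same_data {R : Finset Ei} (hR : ∀ ρ ∈ R, Pq ρ) {m m' : Bool} {c c' : Ei}
    {p p' : Bool × ZMod 3} {f f' : Ei → ZMod 3} (hc : ¬ (3 : ℤ) ∣ nr c) (hc' : ¬ (3 : ℤ) ∣ nr c')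
    (h : Same m (c ^ 3 * (un p * pe R f)) m' (c' ^ 3 * (un p' * pe R f'))) :
    sg m p.2 = sg m' p'.2 ∧ ∀ ρ ∈ R, sg m (f ρ) = sg m' (f' ρ) := by
  obtain ⟨x, y, hx, hy, hxy⟩ := h
  obtain ⟨b, u, hu, h1⟩ := form hR m (p := p) (f := f) hx hc
  obtain ⟨b', u', hu', h1'⟩ := form hR m' (p := p') (f := f') hy hc'
  rw [h1, h1'] at hxy
  obtain ⟨h2, h3⟩ := el_inj (prm_mul (prm_pow hu 3) (bs_prm (prm_pe hR f)))
    (prm_mul (prm_pow hu' 3) (bs_prm (prm_pe hR f'))) hxy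
  refine ⟨congrArg Prod.snd h2, fun ρ hρ => ?_⟩
  rw [← mult_bs hR m f (prm_ne_zero hu) hρ, ← mult_bs hR m' f' (prm_ne_zero hu') hρ, h3]

/-- the square of a product of powers -/
lemma pe_sq (R : Finset Ei) (f : Ei → ZMod 3) : pe R f ^ 2 =
    (∏ ρ ∈ R, if f ρ = 2 then ρ else 1) ^ 3 * pe R (fun ρ => -f ρ) := by
  unfold pe
  rw [← Finset.prod_pow, ← Finset.prod_pow, ← Finset.prod_mul_distrib]
  refine Finset.prod_congr rfl fun ρ _ => ?_
  have h : ∀ x : ZMod 3, x.val * 2 = (if x = 2 then 3 else 0) + (-x).val := by decide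
  rw [← pow_mul, h (f ρ), pow_add]
  split_ifs
  · rfl
  · rw [pow_zero, one_pow]

/-- `bs z` is a cube times the element of the data -/
lemma bs_form {R : Finset Ei} (hR : ∀ ρ ∈ R, Pq ρ) (m : Bool) {c : Ei} {p : Bool × ZMod 3}
    {f : Ei → ZMod 3} (hc : ¬ (3 : ℤ) ∣ nr c) : ∃ d : Ei, ¬ (3 : ℤ) ∣ nr d ∧
      bs m (c ^ 3 * (un p * pe R f)) =
        d ^ 3 * (un (false, sg m p.2) * pe R (fun ρ => sg m (f ρ))) := by
  cases m
  · obtain ⟨b, k⟩ := p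
    cases b
    · exact ⟨c, hc, rfl⟩
    · refine ⟨-c, ?_, ?_⟩
      · have h : nr (-c) = nr c := by
          have := nr_mul (-1 : Ei) c
          rw [neg_one_mul] at this
          rw [this]
          have h1 : nr (-1 : Ei) = 1 := by decide
          rw [h1, one_mul]
        rwa [h]
      · have h : un (true, k) = -un (false, k) := by
          revert k
          decide
        unfold bs sg
        simp only [Bool.false_eq_true, if_false]
        rw [h]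
        ring
  · refine ⟨c ^ 2 * ∏ ρ ∈ R, (if f ρ = 2 then ρ else 1), ?_, ?_⟩
    · refine not3_mul (not3_pow hc 2) (not3_prm (Pool.Agent.H462.JL.prm_prod' fun ρ hρ => ?_))
      split_ifs
      · exact (hR ρ hρ).three
      · exact prm_one
    · unfold bs sg
      simp only [if_true]
      rw [mul_pow, mul_pow, un_sq, pe_sq]
      ring

/-- **the same data, the same class** -/
theorem data_same {R : Finset Ei} (hR : ∀ ρ ∈ R, Pq ρ) {m m' : Bool} {c c' : Ei}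
    {p p' : Bool × ZMod 3} {f f' : Ei → ZMod 3} (hc : ¬ (3 : ℤ) ∣ nr c) (hc' : ¬ (3 : ℤ) ∣ nr c')
    (h1 : sg m p.2 = sg m' p'.2) (h2 : ∀ ρ ∈ R, sg m (f ρ) = sg m' (f' ρ)) :
    Same m (c ^ 3 * (un p * pe R f)) m' (c' ^ 3 * (un p' * pe R f')) := by
  obtain ⟨d, hd, e1⟩ := bs_form hR m (p := p) (f := f) hc
  obtain ⟨d', hd', e2⟩ := bs_form hR m' (p := p') (f := f') hc'
  refine ⟨d', d, hd', hd, ?_⟩
  have h3 : pe R (fun ρ => sg m (f ρ)) = pe R (fun ρ => sg m' (f' ρ)) :=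
    Finset.prod_congr rfl fun ρ hρ => by
      show ρ ^ (sg m (f ρ)).val = ρ ^ (sg m' (f' ρ)).val
      rw [h2 ρ hρ]
  rw [e1, e2, h1, h3]
  ring

/-- `nq` of a product of powers -/
lemma nq_pe {R : Finset Ei} (hR : ∀ ρ ∈ R, Pq ρ) (f : Ei → ZMod 3) :
    nq (pe R f) = ∑ ρ ∈ R, f ρ * nq ρ := by
  have hpow : ∀ (ρ : Ei), prm ρ → ∀ k : ℕ, nq (ρ ^ k) = (k : ZMod 3) * nq ρ := by
    intro ρ hρ k
    induction k with
    | zero =>
      rw [pow_zero, Nat.cast_zero, zero_mul]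
      decide
    | succ k ih =>
      rw [pow_succ, nq_mul' (prm_pow hρ k) hρ, ih, Nat.cast_succ]
      ring
  unfold pe
  induction R using Finset.induction_on with
  | empty =>
    rw [Finset.prod_empty, Finset.sum_empty]
    decide
  | insert a s ha ih =>
    have hs : ∀ ρ ∈ s, Pq ρ := fun ρ hρ => hR ρ (Finset.mem_insert_of_mem hρ)
    have haq := hR a (Finset.mem_insert_self _ _)
    have e : nq (a ^ (f a).val * ∏ x ∈ s, x ^ (f x).val) =
        nq (a ^ (f a).val) + nq (∏ x ∈ s, x ^ (f x).val) :=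
      nq_mul' (prm_pow haq.three _) (prm_pe hs f)
    rw [Finset.prod_insert ha, Finset.sum_insert ha, e, hpow a haq.three, ZMod.natCast_zmod_val]
    exact congrArg _ (ih hs)

lemma sg_nq {R : Finset Ei} (hR : ∀ ρ ∈ R, Pq ρ) (m : Bool) (f : Ei → ZMod 3) :
    sg m (nq (pe R f)) = ∑ ρ ∈ R, sg m (f ρ) * nq ρ := by
  rw [nq_pe hR]
  unfold sg
  split_ifs
  · rw [← Finset.sum_neg_distrib]
    exact Finset.sum_congr rfl fun ρ _ => by ring
  · rfl

lemma un_six (p : Bool × ZMod 3) : un p ^ 6 = 1 := by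
  revert p
  decide

/-- a cube prime to three does not change the excluded class -/
lemma bad_cube {c B : Ei} (hc : ¬ (3 : ℤ) ∣ nr c) : bad (c ^ 3 * B) ↔ bad B := by
  obtain ⟨p, n, hn, rfl⟩ := exists_unp hc
  have h1 : (3 : Ei) ∣ ((un p * n) ^ 3) ^ 2 - 1 := by
    have h2 : ((un p * n) ^ 3) ^ 2 = un p ^ 6 * n ^ 6 := by ring
    rw [h2, un_six, one_mul]
    exact prm_pow hn 6
  have h4 : (9 : ℤ) ∣ nr ((un p * n) ^ 3) - 1 := by
    obtain ⟨a, ha⟩ := prm_nr hn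
    have h5 : nr ((un p * n) ^ 3) = (1 + 3 * a) ^ 3 := by
      have h6 : (un p * n) ^ 3 = (un p * n) * ((un p * n) * (un p * n)) := by ring
      rw [h6]
      simp only [nr_mul, un_nr]
      rw [ha]
      ring
    rw [h5]
    exact ⟨a + 3 * a ^ 2 + 3 * a ^ 3, by ring⟩
  unfold bad
  refine and_congr ?_ ?_
  · have e : ((un p * n) ^ 3 * B) ^ 2 - 1 = (((un p * n) ^ 3) ^ 2 - 1) * B ^ 2 + (B ^ 2 - 1) := by
      ring
    rw [e, dvd_add_right (h1.mul_right _)]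
  · rw [nr_mul]
    have e : nr ((un p * n) ^ 3) * nr B - 1 = (nr ((un p * n) ^ 3) - 1) * nr B + (nr B - 1) := by
      ring
    rw [e, dvd_add_right (h4.mul_right _)]

end Pool.Agent.H451.OP
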