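import Mathlib
import Pool.Agent.H451.OP.P4
import Pool.Agent.H462.JL.Fin

/-!
# The law of the families of the elements `Z i * D ^ E i`
-/

set_option autoImplicit false
set_option linter.unusedSectionVars false
set_option linter.unusedVariables false

open scoped Classical
open Finset Filter

namespace Pool.Agent.H451.OP

open Pool.Agent.Y692.QS (Ei w nr nr_mul)
open Pool.Agent.Y703.CT
open Pool.Agent.Y703.XL (cr)
open Pool.Agent.Y715.T.RecG (Pq)
open Pool.Agent.Y715.T.Gi (lam prime_lam nr_lam lam_sq)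
open Pool.Agent.Y699.E (PD mem_PD PS nrm prm)
open Pool.Agent.H462.CTU.Chr (nq)
open Pool.Agent.H462.CTU.Law.Cou (un un_nr un_inj un_isUnit un_ne exists_un el_inj A0 ct ct_congr
  exists_el)
open Pool.Agent.H462.JL (pe prm_pe sg sg_zero sg_inj bad tw CorG cor_unique AR cop cop_un SR mem_SR
  KK ee nJ cor_ex' law_G law_all InG)

/-! ### the prime over three -/

lemma lam_iff (z : Ei) : lam ∣ z ↔ (3 : ℤ) ∣ nr z := by
  constructor
  · rintro ⟨y, rfl⟩
    rw [nr_mul, nr_lam]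
    exact dvd_mul_right _ _
  · intro h
    have h1 : ((nr z : ℤ) : ZMod 3) = 0 := (ZMod.intCast_zmod_eq_zero_iff_dvd _ 3).2 (by exact_mod_cast h)
    rw [Pool.Agent.Y692.QS.nr_mod] at h1
    have h2 : ((z.re + z.im : ℤ) : ZMod 3) = 0 := by
      push_cast
      exact (pow_eq_zero_iff two_ne_zero).1 h1
    obtain ⟨c, hc⟩ := (ZMod.intCast_zmod_eq_zero_iff_dvd _ 3).1 h2
    have hc' : z.re + z.im = 3 * c := by exact_mod_cast hc
    refine ⟨-lam * (c : Ei) + (z.im : Ei) * ⟨1, 1⟩, ?_⟩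
    apply QuadraticAlgebra.ext
    · simp [lam]
      linarith
    · simp [lam]
      linarith

lemma strip {u : Ei} (hu : u ≠ 0) : ∃ (k : ℕ) (v : Ei), ¬ (3 : ℤ) ∣ nr v ∧ u = lam ^ k * v := by
  obtain ⟨k, v, hv, h⟩ := WfDvdMonoid.max_power_factor hu prime_lam.irreducible
  exact ⟨k, v, fun h1 => hv ((lam_iff v).2 h1), h⟩

lemma lam_pow_eq' {k l : ℕ} (hkl : k ≤ l) {X Y : Ei} (hX : ¬ (3 : ℤ) ∣ nr X)
    (h : lam ^ k * X = lam ^ l * Y) : X = Y := by
  obtain ⟨d, rfl⟩ := Nat.exists_eq_add_of_le hkl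
  rw [pow_add, mul_assoc] at h
  have h1 := mul_left_cancel₀ (pow_ne_zero k prime_lam.ne_zero) h
  rcases Nat.eq_zero_or_pos d with h2 | h2
  · rw [h1, h2, pow_zero, one_mul]
  · exfalso
    apply hX
    rw [← lam_iff, h1]
    exact (dvd_pow_self lam h2.ne').mul_right _

lemma lam_pow_eq {k l : ℕ} {X Y : Ei} (hX : ¬ (3 : ℤ) ∣ nr X) (hY : ¬ (3 : ℤ) ∣ nr Y)
    (h : lam ^ k * X = lam ^ l * Y) : X = Y := by
  rcases le_total k l with h1 | h1
  · exact lam_pow_eq' h1 hX h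
  · exact (lam_pow_eq' h1 hY h.symm).symm

/-- the same class modulo the cubes of the field -/
def SameC (x y : Ei) : Prop := ∃ u v : Ei, u ≠ 0 ∧ v ≠ 0 ∧ u ^ 3 * x = v ^ 3 * y

lemma same_iff {m m' : Bool} {z z' : Ei} (hz : ¬ (3 : ℤ) ∣ nr z) (hz' : ¬ (3 : ℤ) ∣ nr z') :
    SameC (bs m z) (bs m' z') ↔ Same m z m' z' := by
  constructor
  · rintro ⟨u, v, hu, hv, h⟩
    obtain ⟨k, u', hu', rfl⟩ := strip hu
    obtain ⟨l, v', hv', rfl⟩ := strip hv
    refine ⟨u', v', hu', hv', ?_⟩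
    refine lam_pow_eq (k := k * 3) (l := l * 3) (not3_mul (not3_pow hu' 3) (bs_three hz))
      (not3_mul (not3_pow hv' 3) (bs_three hz')) ?_
    rw [pow_mul, pow_mul, ← mul_assoc, ← mul_assoc, ← mul_pow, ← mul_pow]
    exact h
  · rintro ⟨u, v, hu, hv, h⟩
    exact ⟨u, v, not3_ne hu, not3_ne hv, h⟩

lemma same_refl (m : Bool) (z : Ei) : Same m z m z := by
  have h : ¬ (3 : ℤ) ∣ nr (1 : Ei) := by rw [Pool.Agent.Y692.QS.nr_one]; norm_num
  exact ⟨1, 1, h, h, rfl⟩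

lemma same_symm {m m' : Bool} {z z' : Ei} (h : Same m z m' z') : Same m' z' m z := by
  obtain ⟨u, v, hu, hv, h⟩ := h
  exact ⟨v, u, hv, hu, h.symm⟩

lemma same_trans {m m' m'' : Bool} {z z' z'' : Ei} (h : Same m z m' z') (h' : Same m' z' m'' z'') :
    Same m z m'' z'' := by
  obtain ⟨u, v, hu, hv, h⟩ := h
  obtain ⟨u', v', hu', hv', h'⟩ := h'
  refine ⟨u * u', v * v', not3_mul hu hu', not3_mul hv hv', ?_⟩
  linear_combination u' ^ 3 * h + v ^ 3 * h'

/-- the corank, as a function -/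
noncomputable def nu (z : Ei) : ℕ := sInf {r | CorG z r}

lemma nu_eq {z : Ei} {r : ℕ} (h : CorG z r) : nu z = r := by
  have h1 : {r | CorG z r} = {r} := by
    ext s
    exact ⟨fun h2 => cor_unique h2 h, fun h2 => by
      have h3 : s = r := h2
      rw [h3]
      exact h⟩
  unfold nu
  rw [h1]
  exact csInf_singleton r

lemma nu_iff {z : Ei} (h : ∃ r, CorG z r) (r : ℕ) : CorG z r ↔ nu z = r := by
  obtain ⟨s, hs⟩ := h
  rw [nu_eq hs]
  exact ⟨fun h1 => cor_unique hs h1, fun h1 => h1 ▸ hs⟩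

lemma nu_congr {z z' : Ei} (h : ∀ r, CorG z r ↔ CorG z' r) : nu z = nu z' := by
  unfold nu
  congr 1
  ext r
  exact h r

section
variable {I : Type} [Fintype I]

/-- the data of the family of the elements `Z i * D ^ E i` -/
structure Dat (Z : I → Ei) (E : I → ℕ) (R : Finset Ei) (c : I → Ei) (q : I → Bool × ZMod 3)
    (f : I → Ei → ZMod 3) : Prop where
  pq : ∀ ρ ∈ R, Pq ρ
  three : ∀ i, ¬ (3 : ℤ) ∣ nr (c i)
  eq : ∀ i, Z i = c i ^ 3 * (un (q i) * pe R (f i))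
  ex : ∀ i, E i % 3 ≠ 0

/-- `D` or `D²` -/
def mm (E : I → ℕ) (i : I) : Bool := decide (E i % 3 = 2)

/-- the cube-free elements -/
noncomputable def AA (q : I → Bool × ZMod 3) (R : Finset Ei) (f : I → Ei → ZMod 3) (i : I) : Ei :=
  un (q i) * pe R (f i)

lemma exists_dat {Z : I → Ei} {E : I → ℕ} {R : Finset Ei} (hR : ∀ ρ ∈ R, Pq ρ)
    (hZ : ∀ i, ¬ (3 : ℤ) ∣ nr (Z i)) (hRZ : ∀ i ρ, Pq ρ → ρ ∣ Z i → ρ ∈ R)
    (hE : ∀ i, E i % 3 ≠ 0) : ∃ c q f, Dat Z E R c q f := by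
  choose c q f h1 h2 using fun i => dec hR (hZ i) (hRZ i)
  exact ⟨c, q, f, hR, h1, h2, hE⟩

variable {Z : I → Ei} {E : I → ℕ} {R : Finset Ei} {c : I → Ei} {q : I → Bool × ZMod 3}
    {f : I → Ei → ZMod 3} (hD : Dat Z E R c q f)
include hD

lemma fm : Fm (AA q R f) q R f := ⟨hD.pq, fun i => rfl⟩

lemma z_three (i : I) : ¬ (3 : ℤ) ∣ nr (Z i) := by
  rw [hD.eq i]
  exact not3_mul (not3_pow (hD.three i) 3) (not3_mul (not3_un _) (not3_prm (prm_pe hD.pq _)))

/-- the element of the family -/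
lemma form_tw (i : I) (D : Ei) : Z i * D ^ E i =
    (c i * D ^ (E i / 3)) ^ 3 * tw (mm E i) (AA q R f i) D := by
  rw [hD.eq i]
  have h := Nat.div_add_mod (E i) 3
  have h0 := hD.ex i
  have h3 : E i % 3 < 3 := Nat.mod_lt _ (by norm_num)
  rcases (by omega : E i % 3 = 1 ∨ E i % 3 = 2) with h1 | h1
  · have h2 : mm E i = false := by
      unfold mm
      rw [h1]
      rfl
    have h4 : D ^ E i = (D ^ (E i / 3)) ^ 3 * D := by
      rw [← pow_mul, ← pow_succ]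
      congr 1
      omega
    rw [h2, h4]
    unfold tw AA
    simp only [Bool.false_eq_true, if_false]
    ring
  · have h2 : mm E i = true := by
      unfold mm
      rw [h1]
      rfl
    have h4 : D ^ E i = (D ^ (E i / 3)) ^ 3 * D ^ 2 := by
      rw [← pow_mul, ← pow_add]
      congr 1
      omega
    rw [h2, h4]
    unfold tw AA
    simp only [if_true]
    ring

lemma bad_tw (i : I) {D : Ei} (h3 : ¬ (3 : ℤ) ∣ nr D) :
    bad (Z i * D ^ E i) ↔ bad (tw (mm E i) (AA q R f i) D) := by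
  rw [form_tw hD]
  exact bad_cube (not3_mul (hD.three i) (not3_pow h3 _))

omit hD in
lemma tw_unit {b : Bool} {x D : Ei} (hu : ¬ IsUnit D) : ¬ IsUnit (tw b x D) := by
  intro h
  apply hu
  unfold tw at h
  split_ifs at h
  · exact isUnit_of_dvd_unit ((dvd_pow_self D two_ne_zero).trans (dvd_mul_left _ _)) h
  · exact isUnit_of_dvd_unit (dvd_mul_left _ _) h

lemma ex_cor (i : I) {D : Ei} (hA : AR R D) (hu : ¬ IsUnit D) :
    ∃ r, CorG (tw (mm E i) (AA q R f i) D) r := by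
  obtain ⟨p, n, hn, hz⟩ := exists_el hA.1
  have hc : cop R n := by
    have := hA.2
    rw [hz] at this
    exact (cop_un p).1 this
  have hu' := tw_unit (b := mm E i) (x := AA q R f i) hu
  rw [hz, tw_eq (fm hD) hn hc] at hu' ⊢
  exact cor_ex' (pq_union (fm hD) hn hc) _ _ hu'

/-- the same class, the same corank -/
lemma nu_same {i l : I} (h : Same (mm E i) (Z i) (mm E l) (Z l)) {D : Ei} (hA : AR R D) :
    nu (tw (mm E i) (AA q R f i) D) = nu (tw (mm E l) (AA q R f l) D) := by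
  obtain ⟨p, n, hn, hz⟩ := exists_el hA.1
  have hc : cop R n := by
    have := hA.2
    rw [hz] at this
    exact (cop_un p).1 this
  rw [hD.eq i, hD.eq l] at h
  obtain ⟨h1, h2⟩ := same_data hD.pq (hD.three i) (hD.three l) h
  have h3 : ee R (fun ρ => sg (mm E i) (f i ρ)) = ee R (fun ρ => sg (mm E l) (f l ρ)) := by
    funext ρ
    unfold ee
    by_cases hρ : ρ ∈ R
    · rw [if_pos hρ, if_pos hρ]
      exact h2 ρ hρ
    · rw [if_neg hρ, if_neg hρ]
  have h4 : ∀ k, KK R (fun ρ => sg (mm E i) (f i ρ)) k = KK R (fun ρ => sg (mm E l) (f l ρ)) k := by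
    intro k
    unfold KK
    have h5 : (R.filter fun ρ => sg (mm E i) (f i ρ) = 0) =
        R.filter fun ρ => sg (mm E l) (f l ρ) = 0 :=
      filter_congr fun ρ hρ => by rw [h2 ρ hρ]
    rw [h5]
  apply nu_congr
  intro r
  rw [hz, cor_fm (fm hD) hn hc, cor_fm (fm hD) hn hc, h1, h3, h4]

/-- the class and the law, for a set of indices of different classes -/
theorem law_T (T : Finset I) (hT : ∀ i ∈ T, ∀ l ∈ T, i ≠ l → ¬ Same (mm E i) (Z i) (mm E l) (Z l))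
    (ρ : I → ℕ) :
    ((GG q R f (mm E)).Nonempty → Tendsto (fun X : ℕ => ({D : Ei | nr D ≤ X ∧ AR R D ∧
        CF (AA q R f) (mm E) D ∧ ∀ i ∈ T, nu (tw (mm E i) (AA q R f i) D) = ρ i}.ncard : ℝ) /
      ({D : Ei | nr D ≤ X ∧ AR R D ∧ CF (AA q R f) (mm E) D}.ncard : ℝ)) atTop
      (nhds (∏ i ∈ T, cr (ρ i)))) ∧
    Tendsto (fun X : ℕ => ({D : Ei | nr D ≤ X ∧ AR R D ∧
        CF (AA q R f) (mm E) D ∧ ∀ i ∈ T, nu (tw (mm E i) (AA q R f i) D) = ρ i}.ncard : ℝ) /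
      ({D : Ei | nr D ≤ X ∧ AR R D}.ncard : ℝ)) atTop
      (nhds (((GG q R f (mm E)).card : ℝ) / 9 * ∏ i ∈ T, cr (ρ i))) := by
  have hF' : Fm (fun i : {i // i ∈ T} => AA q R f i.1) (fun i => q i.1) R (fun i => f i.1) :=
    ⟨hD.pq, fun i => rfl⟩
  have hne : ∀ i l : {i // i ∈ T}, i ≠ l → sg (mm E i.1) (q i.1).2 ≠ sg (mm E l.1) (q l.1).2 ∨
      ∃ u ∈ R, sg (mm E i.1) (f i.1 u) ≠ sg (mm E l.1) (f l.1 u) := by
    intro i l hil
    by_contra hcon
    push Not at hcon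
    refine hT i.1 i.2 l.1 l.2 (fun h => hil (Subtype.ext h)) ?_
    rw [hD.eq i.1, hD.eq l.1]
    exact data_same hD.pq (hD.three _) (hD.three _) hcon.1 hcon.2
  have hset : ∀ X : ℕ, {D : Ei | nr D ≤ X ∧ AR R D ∧
      CF (AA q R f) (mm E) D ∧ ∀ i ∈ T, nu (tw (mm E i) (AA q R f i) D) = ρ i} =
      {D : Ei | nr D ≤ X ∧ AR R D ∧ CG q R f (mm E) D ∧
        ∀ i : {i // i ∈ T}, CorG (tw (mm E i.1) (AA q R f i.1) D) (ρ i.1)} := by
    intro X
    ext D
    constructor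
    · rintro ⟨h1, h2, h3, h4⟩
      exact ⟨h1, h2, (CF_iff (mm E) (fm hD) h2).1 h3, fun i =>
        (nu_iff (ex_cor hD i.1 h2 h3.1) _).2 (h4 i.1 i.2)⟩
    · rintro ⟨h1, h2, h3, h4⟩
      have h3' := (CF_iff (mm E) (fm hD) h2).2 h3
      exact ⟨h1, h2, h3', fun i hi => (nu_iff (ex_cor hD i h2 h3'.1) _).1 (h4 ⟨i, hi⟩)⟩
  have e : ∏ i ∈ T, cr (ρ i) = ∏ i : {i // i ∈ T}, cr (ρ i.1) :=
    Finset.prod_subtype T (fun x => Iff.rfl) fun i => cr (ρ i)
  have hj := joint (fun i : {i // i ∈ T} => mm E i.1) hF' hne (fun i => ρ i.1)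
  rw [e]
  generalize ∏ i : {i // i ∈ T}, cr (ρ i.1) = L at hj ⊢
  have h1 := law_all (P := fun D => ∀ i : {i // i ∈ T},
    CorG (tw (mm E i.1) (AA q R f i.1) D) (ρ i.1)) (L := L) hD.pq (inG_CG (R := R) (f := f) (q := q) (mm E)) hj
  have h2 : (GG q R f (mm E)).Nonempty → _ := fun hG => law_G (P := fun D => ∀ i : {i // i ∈ T},
    CorG (tw (mm E i.1) (AA q R f i.1) D) (ρ i.1)) (L := L) hD.pq
      (inG_CG (R := R) (f := f) (q := q) (mm E)) hG hj
  constructor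
  · intro hG
    refine (h2 hG).congr fun X => ?_
    rw [hset X, set_CF' (mm E) (fm hD) X]
  · refine h1.congr fun X => ?_
    rw [hset X]

omit hD in
/-- representatives of the classes -/
theorem exists_T (Z : I → Ei) (E : I → ℕ) : ∃ T : Finset I, T.card =
      (Set.range fun i => {l | Same (mm E i) (Z i) (mm E l) (Z l)}).ncard ∧
    (∀ i ∈ T, ∀ l ∈ T, i ≠ l → ¬ Same (mm E i) (Z i) (mm E l) (Z l)) ∧
    ∀ i, ∃ t ∈ T, Same (mm E t) (Z t) (mm E i) (Z i) := by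
  obtain ⟨F, hF⟩ : ∃ F : I → Set I, F = fun i => {l | Same (mm E i) (Z i) (mm E l) (Z l)} := ⟨_, rfl⟩
  have hiff : ∀ i l, F i = F l ↔ Same (mm E i) (Z i) (mm E l) (Z l) := by
    intro i l
    rw [hF]
    constructor
    · intro h
      have h1 : l ∈ {l' | Same (mm E l) (Z l) (mm E l') (Z l')} := same_refl _ _
      have h2 : l ∈ {l' | Same (mm E i) (Z i) (mm E l') (Z l')} := by
        have h3 : {l' | Same (mm E i) (Z i) (mm E l') (Z l')} =
          {l' | Same (mm E l) (Z l) (mm E l') (Z l')} := h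
        rw [h3]
        exact h1
      exact h2
    · intro h
      ext x
      exact ⟨fun h1 => same_trans (same_symm h) h1, fun h1 => same_trans h h1⟩
  obtain ⟨u, -, h2, h3⟩ := Finset.exists_subset_injOn_image_eq_of_surjOn (f := F) Set.univ
    (univ.image F) (by
      intro y hy
      obtain ⟨x, -, rfl⟩ := mem_image.1 (mem_coe.1 hy)
      exact ⟨x, Set.mem_univ _, rfl⟩)
  refine ⟨u, ?_, ?_, ?_⟩
  · rw [← hF, ← Finset.card_image_of_injOn h2, h3, ← Set.ncard_coe_finset, Finset.coe_image,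
      Finset.coe_univ, Set.image_univ]
  · intro i hi l hl hil h
    exact hil (h2 hi hl ((hiff i l).2 h))
  · intro i
    have h4 : F i ∈ u.image F := by
      rw [h3]
      exact mem_image_of_mem _ (mem_univ i)
    obtain ⟨t, ht, h5⟩ := mem_image.1 h4
    exact ⟨t, ht, (hiff t i).1 h5⟩

end

end Pool.Agent.H451.OP
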