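import Mathlib
import Pool.Agent.H451.OP.P5
import Pool.Agent.H451.OP.P1
import Pool.Agent.H462.KX.Rank

/-!
# The law over `K`
-/

set_option autoImplicit false
set_option linter.unusedSectionVars false
set_option linter.unusedVariables false

open scoped Classical
open Finset Filter

namespace Pool.Agent.H451.OP

open NumberField IsDedekindDomain WeierstrassCurve
open Pool.Agent.Y692.QS (Ei w nr nr_mul)
open Pool.Agent.Y703.CT
open Pool.Agent.Y703.XL (cr)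
open Pool.Agent.Y715.T.RecG (Pq)
open Pool.Agent.Y699.E (PD mem_PD PS nrm prm)
open Pool.Agent.Y696.CTK (ED)
open Pool.Agent.H451.BB (PL)
open Pool.Agent.H462.CTU.Chr (nq)
open Pool.Agent.H462.CTU.K (AK AK_iff)
open Pool.Agent.H462.CTU.Law.Cou (un un_nr un_inj un_isUnit un_ne exists_un el_inj A0 ct ct_congr
  exists_el)
open Pool.Agent.H462.JL (pe prm_pe sg sg_zero sg_inj bad tw CorG cor_unique AR cop cop_un SR mem_SR
  KK ee nJ cor_ex' law_G law_all InG badK badK_iff bsK cellsK oneG ar_low share_G)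

section points
variable {K : Type} [Field K] [NumberField K]

/-- the groups of the points -/
theorem pts_cube {B x : K} (hB : B ≠ 0) (hx : x ≠ 0) :
    Nonempty ((ED (B * x ^ 3)).toAffine.Point ≃+ (ED B).toAffine.Point) := by
  obtain ⟨g, hgi, hg⟩ := Pool.Agent.H462.KX.exists_homA (K := K) (F := K) (A := B) (d := x ^ 3) hB
    (pow_ne_zero 3 hx) (u := x⁻¹) (by
      show x⁻¹ ^ 3 * x ^ 3 = 1
      rw [← mul_pow, inv_mul_cancel₀ hx, one_pow]) (V := ED B) rfl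
  have hinj : Function.Injective g := (injective_iff_map_eq_zero g).2 hgi
  have hgs : Function.Surjective g := by
    rintro (_ | ⟨X, Y, hn⟩)
    · exact ⟨0, map_zero g⟩
    · have h5 : (x ^ 3 * Y) ^ 2 + (B * x ^ 3) * (x ^ 3 * Y) = (x ^ 2 * X) ^ 3 := by
        have := (Affine.equation_iff _ _).1 hn.1
        simp only [ED] at this
        linear_combination x ^ 6 * this
      obtain ⟨h6, h7⟩ := hg (x ^ 2 * X) (x ^ 3 * Y)
        (Pool.Agent.Y710.CTE.Ed_nons (mul_ne_zero hB (pow_ne_zero 3 hx)) h5)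
      refine ⟨_, h7.trans ?_⟩
      rw [Affine.Point.some.injEq]
      constructor
      · show x⁻¹ ^ 2 * (x ^ 2 * X) = X
        field_simp
      · show x⁻¹ ^ 3 * (x ^ 3 * Y) = Y
        field_simp
  exact ⟨AddEquiv.ofBijective g ⟨hinj, hgs⟩⟩

theorem rk_cube {B x : K} (hB : B ≠ 0) (hx : x ≠ 0) :
    Module.finrank ℤ (ED (B * x ^ 3)).toAffine.Point = Module.finrank ℤ (ED B).toAffine.Point := by
  obtain ⟨e⟩ := pts_cube hB hx
  exact e.toIntLinearEquiv.finrank_eq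

theorem fg_cube {B x : K} (hB : B ≠ 0) (hx : x ≠ 0)
    (h : Module.Finite ℤ (ED B).toAffine.Point) :
    Module.Finite ℤ (ED (B * x ^ 3)).toAffine.Point := by
  obtain ⟨e⟩ := pts_cube hB hx
  exact Module.Finite.equiv e.symm.toIntLinearEquiv

end points

section
variable {K : Type} [Field K] [NumberField K] (j : Ei ≃+* 𝓞 K)
  (hj : ∀ z : Ei, Algebra.norm ℤ (j z) = nr z)

/-- squarefree and prime to `3 P` -/
def AdO (P D : 𝓞 K) : Prop := AK D ∧ IsCoprime P D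

/-- the class -/
def CdO {I : Type} (z : I → 𝓞 K) (E : I → ℕ) (D : 𝓞 K) : Prop :=
  ¬ IsUnit D ∧ ∀ i, ¬ badK (z i * D ^ E i)

/-- the primes of `P` -/
lemma cop_iff {P : Ei} (hP : ¬ (3 : ℤ) ∣ nr P) (D : Ei) : cop (PD P) D ↔ IsCoprime P D := by
  have hP0 := not3_ne hP
  constructor
  · intro h
    obtain ⟨u, g, hu, hg, hD⟩ := Pool.Agent.H451.PV.fact P hP0 hP
    rw [hD, isCoprime_mul_unit_left_left hu]
    unfold Finsupp.prod
    refine IsCoprime.prod_left fun ρ hρ => IsCoprime.pow_left ?_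
    have hq := hg ρ hρ
    have hdv : ρ ∣ P := by
      rw [hD]
      refine Dvd.dvd.mul_left ?_ _
      exact (dvd_pow_self ρ (Finsupp.mem_support_iff.1 hρ)).trans
        (Finset.dvd_prod_of_mem (fun ρ => ρ ^ g ρ) hρ)
    exact (hq.prime.irreducible.coprime_iff_not_dvd).2 (h ρ ((mem_PD hP0).2 ⟨hq, hdv⟩))
  · intro h ρ hρ hd
    obtain ⟨h1, h2⟩ := (mem_PD hP0).1 hρ
    exact h1.prime.not_isUnit (h.isUnit_of_dvd' h2 hd)

include hj in
lemma AdO_iff {P : Ei} (hP : ¬ (3 : ℤ) ∣ nr P) (D : Ei) : AdO (j P) (j D) ↔ AR (PD P) D := by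
  unfold AdO AR
  rw [AK_iff j hj, cop_iff hP]
  refine and_congr_right fun _ => ?_
  constructor
  · intro h
    have h1 := h.map (j.symm : 𝓞 K →+* Ei)
    simpa using h1
  · intro h
    exact h.map (j : Ei →+* 𝓞 K)

end

section
variable {I : Type} [Fintype I] {Z : I → Ei} {E : I → ℕ} {R : Finset Ei} {c : I → Ei}
  {q : I → Bool × ZMod 3} {f : I → Ei → ZMod 3} (hD : Dat Z E R c q f)
include hD

lemma CdO_iff {K : Type} [Field K] [NumberField K] (j : Ei ≃+* 𝓞 K)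
    (hj : ∀ z : Ei, Algebra.norm ℤ (j z) = nr z) {D : Ei} (h3 : ¬ (3 : ℤ) ∣ nr D) :
    CdO (fun i => j (Z i)) E (j D) ↔ CF (AA q R f) (mm E) D := by
  unfold CdO CF
  rw [MulEquiv.isUnit_map j]
  refine and_congr_right fun _ => forall_congr' fun i => not_congr ?_
  rw [← bad_tw hD i h3, ← map_pow, ← map_mul, badK_iff j hj]

/-- the cells of the cube-free elements -/
lemma cells_A {K : Type} [Field K] [NumberField K] (j : Ei ≃+* 𝓞 K)
    (hj : ∀ z : Ei, Algebra.norm ℤ (j z) = nr z) :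
    cellsK (fun i => j (AA q R f i)) (mm E) =
      (univ.image fun i => (sg (mm E i) (q i).2, sg (mm E i) (nq (pe R (f i))))).card := by
  have hpe : ∀ i, pe R (f i) = pe (R.filter fun ρ => ∃ i, f i ρ ≠ 0) (f i) := by
    intro i
    unfold pe
    symm
    refine prod_subset (filter_subset _ _) fun ρ hρ hn => ?_
    have h0 : f i ρ = 0 := by
      by_contra h1
      exact hn (mem_filter.2 ⟨hρ, i, h1⟩)
    rw [h0, ZMod.val_zero, pow_zero]
  have hF : Pool.Agent.H462.JL.Fm (AA q R f) q (R.filter fun ρ => ∃ i, f i ρ ≠ 0) f :=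
    ⟨fun ρ hρ => hD.pq ρ (mem_filter.1 hρ).1, fun ρ hρ => (mem_filter.1 hρ).2, fun i => by
      unfold AA
      rw [hpe i]⟩
  have h := Pool.Agent.H462.JL.cells_eq j hj (m := mm E) hF
  simp only [← hpe] at h
  exact h

/-- the cells of the elements -/
lemma cells_Z {K : Type} [Field K] [NumberField K] (j : Ei ≃+* 𝓞 K)
    (hj : ∀ z : Ei, Algebra.norm ℤ (j z) = nr z) :
    cellsK (fun i => j (Z i)) (mm E) = cellsK (fun i => j (AA q R f i)) (mm E) := by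
  unfold cellsK
  congr 1
  have key : ∀ i, ∃ d : Ei, ¬ (3 : ℤ) ∣ nr d ∧
      bsK (mm E i) (j (Z i)) = j (d ^ 3) * bsK (mm E i) (j (AA q R f i)) := by
    intro i
    rw [hD.eq i]
    unfold bsK AA
    cases mm E i
    · refine ⟨c i, hD.three i, ?_⟩
      simp only [Bool.false_eq_true, if_false]
      rw [← map_mul]
    · refine ⟨c i ^ 2, not3_pow (hD.three i) 2, ?_⟩
      simp only [if_true]
      rw [← map_pow, ← map_pow, ← map_mul]
      congr 1
      ring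
  have key2 : ∀ d : Ei, ¬ (3 : ℤ) ∣ nr d → (3 : Ei) ∣ (d ^ 3) ^ 2 - 1 ∧ (9 : ℤ) ∣ nr (d ^ 3) - 1 := by
    intro d hd
    have h1 : bad 1 := by
      refine ⟨?_, ?_⟩
      · rw [one_pow, sub_self]
        exact dvd_zero _
      · rw [Pool.Agent.Y692.QS.nr_one, sub_self]
        exact dvd_zero _
    have h2 := (bad_cube (B := 1) hd).2 h1
    rwa [mul_one] at h2
  congr 1
  funext i
  obtain ⟨d, hd, hk⟩ := key i
  obtain ⟨h1, h2⟩ := key2 d hd
  dsimp only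
  rw [hk]
  refine Prod.ext ?_ ?_
  · dsimp only
    rw [Ideal.Quotient.eq, Ideal.mem_span_singleton]
    have e : (j (d ^ 3) * bsK (mm E i) (j (AA q R f i))) ^ 2 - bsK (mm E i) (j (AA q R f i)) ^ 2 =
        j ((d ^ 3) ^ 2 - 1) * bsK (mm E i) (j (AA q R f i)) ^ 2 := by
      rw [map_sub, map_pow j (d ^ 3) 2, map_one]
      ring
    rw [e]
    refine Dvd.dvd.mul_right ?_ _
    rw [← map_ofNat j 3, map_dvd_iff j]
    exact h1
  · dsimp only
    rw [map_mul, hj, ZMod.intCast_eq_intCast_iff_dvd_sub]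
    have e : Algebra.norm ℤ (bsK (mm E i) (j (AA q R f i))) -
        nr (d ^ 3) * Algebra.norm ℤ (bsK (mm E i) (j (AA q R f i))) =
        -((nr (d ^ 3) - 1) * Algebra.norm ℤ (bsK (mm E i) (j (AA q R f i)))) := by ring
    rw [e]
    exact (h2.mul_right _).neg_right

/-- there are not more cells than classes -/
lemma cells_le {T : Finset I} (hT : ∀ i, ∃ t ∈ T, Same (mm E t) (Z t) (mm E i) (Z i)) :
    (univ.image fun i => (sg (mm E i) (q i).2, sg (mm E i) (nq (pe R (f i))))).card ≤ T.card := by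
  refine (card_le_card ?_).trans (card_image_le (s := T)
    (f := fun i => (sg (mm E i) (q i).2, sg (mm E i) (nq (pe R (f i))))))
  intro x hx
  obtain ⟨i, -, rfl⟩ := mem_image.1 hx
  obtain ⟨t, ht, h⟩ := hT i
  rw [hD.eq t, hD.eq i] at h
  obtain ⟨h1, h2⟩ := same_data hD.pq (hD.three t) (hD.three i) h
  refine mem_image.2 ⟨t, ht, Prod.ext h1 ?_⟩
  show sg (mm E t) (nq (pe R (f t))) = sg (mm E i) (nq (pe R (f i)))
  rw [sg_nq hD.pq, sg_nq hD.pq]
  exact sum_congr rfl fun ρ hρ => by rw [h2 ρ hρ]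

end

/-- **The law over `K`.** -/
theorem absO (K : Type) [Field K] [NumberField K] [IsCyclotomicExtension {3} ℚ K]
    (j : Ei ≃+* 𝓞 K) (hj : ∀ z : Ei, Algebra.norm ℤ (j z) = nr z)
    {I : Type} [Fintype I] (Z : I → Ei) (E : I → ℕ) (P : Ei) (hP : ¬ (3 : ℤ) ∣ nr P)
    (hZ : ∀ i, ¬ (3 : ℤ) ∣ nr (Z i)) (hZP : ∀ i ρ, Prime ρ → ρ ∣ Z i → ρ ∣ P)
    (hE : ∀ i, E i % 3 ≠ 0) :
    (∀ X : ℕ, {D : 𝓞 K | Algebra.norm ℤ D ≤ X ∧ AdO (j P) D}.Finite) ∧
    (∃ c : ℝ, 0 < c ∧ ∃ X₀ : ℕ, ∀ X : ℕ, X₀ ≤ X →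
      c * X ≤ ({D : 𝓞 K | Algebra.norm ℤ D ≤ X ∧ AdO (j P) D}.ncard : ℝ)) ∧
    cellsK (fun i => j (Z i)) (mm E) ≤ 9 ∧
    cellsK (fun i => j (Z i)) (mm E) ≤
      (Set.range fun i => {l | Same (mm E i) (Z i) (mm E l) (Z l)}).ncard ∧
    Tendsto (fun X : ℕ => ({D : 𝓞 K | Algebra.norm ℤ D ≤ X ∧ AdO (j P) D ∧
        CdO (fun i => j (Z i)) E D}.ncard : ℝ) /
      ({D : 𝓞 K | Algebra.norm ℤ D ≤ X ∧ AdO (j P) D}.ncard : ℝ)) atTop
      (nhds ((9 - cellsK (fun i => j (Z i)) (mm E)) / 9)) ∧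
    ∃ ν : 𝓞 K → I → ℕ,
      (∀ D, AdO (j P) D → CdO (fun i => j (Z i)) E D → ∀ i,
        Module.Finite ℤ (ED ((j (Z i) * D ^ E i : 𝓞 K) : K)).toAffine.Point ∧
        Module.finrank ℤ (ED ((j (Z i) * D ^ E i : 𝓞 K) : K)).toAffine.Point ≤ 2 * ν D i ∧
        (ν D i = 0 → ∃ d b' c' : Ei, (PL d ∧ (∀ ρ : Ei, Prime ρ → ¬ ρ ^ 3 ∣ d) ∧ d ≠ 0) ∧
          Finite (ED ((j d : 𝓞 K) : K)).toAffine.Point ∧ b' ≠ 0 ∧ c' ≠ 0 ∧
          b' ^ 3 * (Z i * (j.symm D) ^ E i) = c' ^ 3 * d)) ∧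
      (∀ D, AdO (j P) D → ∀ i l, Same (mm E i) (Z i) (mm E l) (Z l) → ν D i = ν D l) ∧
      (∀ T : Finset I, (∀ i ∈ T, ∀ l ∈ T, i ≠ l → ¬ Same (mm E i) (Z i) (mm E l) (Z l)) →
        ∀ ρ : I → ℕ, (cellsK (fun i => j (Z i)) (mm E) < 9 →
          Tendsto (fun X : ℕ => ({D : 𝓞 K | Algebra.norm ℤ D ≤ X ∧ AdO (j P) D ∧
            CdO (fun i => j (Z i)) E D ∧ ∀ i ∈ T, ν D i = ρ i}.ncard : ℝ) /
          ({D : 𝓞 K | Algebra.norm ℤ D ≤ X ∧ AdO (j P) D ∧
            CdO (fun i => j (Z i)) E D}.ncard : ℝ)) atTop (nhds (∏ i ∈ T, cr (ρ i))))) ∧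
      Tendsto (fun X : ℕ => ({D : 𝓞 K | Algebra.norm ℤ D ≤ X ∧ AdO (j P) D ∧
            CdO (fun i => j (Z i)) E D ∧ ∀ i, ν D i = 0}.ncard : ℝ) /
          ({D : 𝓞 K | Algebra.norm ℤ D ≤ X ∧ AdO (j P) D}.ncard : ℝ)) atTop
          (nhds ((9 - cellsK (fun i => j (Z i)) (mm E)) / 9 *
            cr 0 ^ (Set.range fun i => {l | Same (mm E i) (Z i) (mm E l) (Z l)}).ncard)) := by
  have hP0 := not3_ne hP
  have hpq : ∀ ρ ∈ PD P, Pq ρ := fun ρ hρ => ((mem_PD hP0).1 hρ).1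
  obtain ⟨c, q, f, hD⟩ := exists_dat (Z := Z) (E := E) (R := PD P) hpq hZ
    (fun i ρ hρ hd => (mem_PD hP0).2 ⟨hρ, hZP i ρ hρ.prime hd⟩) hE
  obtain ⟨T₀, hT1, hT2, hT3⟩ := exists_T Z E
  have hcell : cellsK (fun i => j (Z i)) (mm E) =
      (univ.image fun i => (sg (mm E i) (q i).2, sg (mm E i) (nq (pe (PD P) (f i))))).card := by
    rw [cells_Z hD j hj, cells_A hD j hj]
  have hcard := card_GG (q := q) (R := PD P) (f := f) (mm E)
  rw [← hcell] at hcard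
  have hle := cells_le hD hT3
  rw [← hcell, hT1] at hle
  have hc9 : (((GG q (PD P) f (mm E)).card : ℕ) : ℝ) = 9 - cellsK (fun i => j (Z i)) (mm E) := by
    have h : (((GG q (PD P) f (mm E)).card : ℕ) : ℝ) + cellsK (fun i => j (Z i)) (mm E) = 9 := by
      exact_mod_cast hcard
    linarith
  have e3 : ∀ D : Ei, AR (PD P) D → ¬ (3 : ℤ) ∣ nr D := fun D h => h.1.2
  have eA : ∀ X : ℕ, {D : 𝓞 K | Algebra.norm ℤ D ≤ X ∧ AdO (j P) D}.ncard =
      {D : Ei | nr D ≤ X ∧ AR (PD P) D}.ncard :=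
    fun X => Pool.Agent.Y696.XK.img_ncard j hj X (AR (PD P)) (AdO (j P))
      fun D => (AdO_iff j hj hP D).symm
  have eC : ∀ X : ℕ, {D : 𝓞 K | Algebra.norm ℤ D ≤ X ∧ AdO (j P) D ∧
        CdO (fun i => j (Z i)) E D}.ncard =
      {D : Ei | nr D ≤ X ∧ AR (PD P) D ∧ CF (AA q (PD P) f) (mm E) D}.ncard := fun X =>
    Pool.Agent.Y696.XK.img_ncard j hj X (fun D => AR (PD P) D ∧ CF (AA q (PD P) f) (mm E) D)
      (fun D => AdO (j P) D ∧ CdO (fun i => j (Z i)) E D) fun D => by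
        rw [AdO_iff j hj hP D]
        exact and_congr_right fun h => (CdO_iff hD j hj (e3 D h)).symm
  obtain ⟨ν, hν⟩ : ∃ ν : 𝓞 K → I → ℕ, ν = fun D i => nu (tw (mm E i) (AA q (PD P) f i) (j.symm D)) :=
    ⟨_, rfl⟩
  have eR : ∀ (X : ℕ) (T : Finset I) (ρ : I → ℕ), {D : 𝓞 K | Algebra.norm ℤ D ≤ X ∧ AdO (j P) D ∧
        CdO (fun i => j (Z i)) E D ∧ ∀ i ∈ T, ν D i = ρ i}.ncard =
      {D : Ei | nr D ≤ X ∧ AR (PD P) D ∧ CF (AA q (PD P) f) (mm E) D ∧
        ∀ i ∈ T, nu (tw (mm E i) (AA q (PD P) f i) D) = ρ i}.ncard := by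
    intro X T ρ
    refine Pool.Agent.Y696.XK.img_ncard j hj X
      (fun D => AR (PD P) D ∧ CF (AA q (PD P) f) (mm E) D ∧
        ∀ i ∈ T, nu (tw (mm E i) (AA q (PD P) f i) D) = ρ i)
      (fun D => AdO (j P) D ∧ CdO (fun i => j (Z i)) E D ∧ ∀ i ∈ T, ν D i = ρ i) fun D => ?_
    rw [AdO_iff j hj hP D]
    refine and_congr_right fun h => ?_
    rw [CdO_iff hD j hj (e3 D h), hν]
    simp only [RingEquiv.symm_apply_apply]
  have hsame : ∀ D, AdO (j P) D → ∀ i l, Same (mm E i) (Z i) (mm E l) (Z l) → ν D i = ν D l := by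
    intro D h1 i l h2
    obtain ⟨z, rfl⟩ := j.surjective D
    rw [hν]
    dsimp only
    rw [RingEquiv.symm_apply_apply]
    exact nu_same hD h2 ((AdO_iff j hj hP z).1 h1)
  refine ⟨fun X => ?_, ?_, ?_, hle, ?_, ν, ?_, hsame, ?_, ?_⟩
  · have h1 : {D : Ei | nr D ≤ X}.Finite :=
      (Pool.Agent.Y699.E.fin_norm_le X).subset fun D hD => Pool.Agent.Y699.E.nr_le.1 hD
    refine (h1.image j).subset ?_
    rintro D ⟨h2, -⟩
    obtain ⟨z, rfl⟩ := j.surjective D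
    rw [hj] at h2
    exact ⟨z, h2, rfl⟩
  · obtain ⟨c, hc, X₀, h⟩ := ar_low hpq
    exact ⟨c, hc, X₀, fun X hX => by rw [eA]; exact h X hX⟩
  · omega
  · have h := share_F (mm E) (fm hD)
    rw [hc9] at h
    simp only [eA, eC]
    exact h
  · intro D h1 h2 i
    obtain ⟨z, rfl⟩ := j.surjective D
    have h1' : AR (PD P) z := (AdO_iff j hj hP z).1 h1
    have h2' : CF (AA q (PD P) f) (mm E) z := (CdO_iff hD j hj (e3 z h1')).1 h2
    obtain ⟨r, hr⟩ := ex_cor hD i h1' h2'.1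
    have hbad := h2'.2 i
    have hu := tw_unit (b := mm E i) (x := AA q (PD P) f i) h2'.1
    have hνr : ν (j z) i = r := by
      rw [hν]
      dsimp only
      rw [RingEquiv.symm_apply_apply]
      exact nu_eq hr
    obtain ⟨g1, g2, -, g4⟩ := oneG (K := K) j hbad hu hr
    have hform := form_tw hD i z
    have hk3 : ¬ (3 : ℤ) ∣ nr (c i * z ^ (E i / 3)) :=
      not3_mul (hD.three i) (not3_pow (e3 z h1') _)
    have hk0 := not3_ne hk3
    have hj0 : ∀ x : Ei, x ≠ 0 → ((j x : 𝓞 K) : K) ≠ 0 := by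
      intro x hx h0
      have h1 : j x = 0 := by exact_mod_cast h0
      exact hx (j.injective (by rw [h1, map_zero]))
    have ht0 : tw (mm E i) (AA q (PD P) f i) z ≠ 0 := by
      intro h0
      have h5 : z ≠ 0 := not3_ne (e3 z h1')
      have h6 : Z i * z ^ E i = 0 := by rw [hform, h0, mul_zero]
      exact mul_ne_zero (not3_ne (hZ i)) (pow_ne_zero _ h5) h6
    have e : ((j (Z i) * (j z) ^ E i : 𝓞 K) : K) =
        ((j (tw (mm E i) (AA q (PD P) f i) z) : 𝓞 K) : K) *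
          ((j (c i * z ^ (E i / 3)) : 𝓞 K) : K) ^ 3 := by
      rw [← map_pow, ← map_mul, hform, map_mul, map_pow]
      push_cast
      ring
    rw [e, hνr, RingEquiv.symm_apply_apply]
    refine ⟨fg_cube (hj0 _ ht0) (hj0 _ hk0) g1, ?_, ?_⟩
    · rw [rk_cube (hj0 _ ht0) (hj0 _ hk0)]
      exact g2
    · intro h0
      subst h0
      exact ⟨_, 1, _, fine hbad hu hr, (g4 rfl).1, one_ne_zero, hk0, by
        rw [one_pow, one_mul]
        exact hform⟩
  · intro T hT ρ h9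
    simp only [eR, eC]
    refine (law_T hD T hT ρ).1 ?_
    rw [← Finset.card_pos]
    omega
  · have h := (law_T hD T₀ hT2 fun _ => 0).2
    rw [hc9, Finset.prod_const, hT1] at h
    simp only [eA]
    refine h.congr fun X => ?_
    congr 2
    rw [← eR X T₀ fun _ => 0]
    congr 1
    ext D
    constructor
    · rintro ⟨h1, h2, h3, h4⟩
      refine ⟨h1, h2, h3, fun i => ?_⟩
      obtain ⟨t, ht, h5⟩ := hT3 i
      rw [← hsame D h2 t i h5]
      exact h4 t ht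
    · rintro ⟨h1, h2, h3, h4⟩
      exact ⟨h1, h2, h3, fun i _ => h4 i⟩

end Pool.Agent.H451.OP
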