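import Mathlib
import Pool.Agent.H451.OP.P1

/-!
# All the codimensions, from the parameters
-/

set_option autoImplicit false
set_option linter.unusedSectionVars false
set_option linter.unusedVariables false

namespace Pool.Agent.H451.OP

open NumberField IsDedekindDomain
open Pool.Agent.H921R2.TatePole (nm)
open Pool.Agent.Y703.CT
open Pool.Agent.Y696.CT
open Pool.Agent.Y696.CTK hiding toC_w
open Pool.Agent.Y692.QS hiding chi Jc Jc_nr chi_red chi_neg_one
open Pool.Agent.Y715.T.Rec (cs nn)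
open Pool.Agent.Y715.T.RecG (Pq)
open Pool.Agent.H451.BB
open Pool.Agent.H451.CubT (DS E Good Gd nm_P gd_iff)
open Pool.Agent.H451.XP
open scoped Classical

section K
variable {K : Type} [Field K] [NumberField K] [IsCyclotomicExtension {3} ℚ K] (j : Ei ≃+* 𝓞 K)

/-- all the parameters have rank zero -/
def ZY {m r : ℕ} {n : Fin r → ℕ} (a : Fin m → Ei) (b : ∀ t : Fin r, Fin (n t) → Ei) : Prop :=
  ∀ (S : Idx m) (τ : ∀ t, Ty (n t)), ∃ d b' c' : Ei, (PL d ∧ (∀ ρ : Ei, Prime ρ → ¬ ρ ^ 3 ∣ d) ∧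
    d ≠ 0) ∧ Finite (ED ((j d : 𝓞 K) : K)).toAffine.Point ∧ b' ≠ 0 ∧ c' ≠ 0 ∧
    b' ^ 3 * DX a b S.1 τ = c' ^ 3 * d

/-- the `L`-functions, over the primes of the Eisenstein integers -/
theorem famY {m r : ℕ} {n : Fin r → ℕ} (a : Fin m → Ei) (b : ∀ t : Fin r, Fin (n t) → Ei)
    (ha : ∀ i, a i ≠ 0) (hb : ∀ t i, b t i ≠ 0) (h : ZY j a b) (i : ℕ) :
    ∃ L : ℂ → ℂ, Differentiable ℂ L ∧ L i ≠ 0 ∧
      ∀ s : ℂ, (i : ℝ) + 1 / 2 < s.re → HasProd (fun P : {P // GPX a b P} =>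
        ∏ q ∈ Finset.univ.filter (fun q : IX m n => dg q + 1 = 2 * i),
          (1 - eX a b P.1 q * Np P.1 ^ (-s))⁻¹) (L s) := by
  have hbad := bad_finX a b ha hb
  set B : Finset (HeightOneSpectrum Ei) := hbad.toFinset with hB
  have hBm : ∀ P, P ∉ B ↔ GPX a b P := by
    intro P
    rw [hB, Set.Finite.mem_toFinset]
    exact not_not
  have key : ∀ (S : Idx m) (τ : ∀ t, Ty (n t)), ∃ L : ℂ → ℂ, Differentiable ℂ L ∧
      L 1 ≠ 0 ∧ ∀ s : ℂ, 3 / 2 < s.re →
        HasProd (fun P : {P // P ∉ B} => (fac (DX a b S.1 τ) s P.1)⁻¹) (L s) := by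
    intro S τ
    obtain ⟨d, b', c', ⟨p1, p2, p3⟩, -, hb0, hc0, hbc⟩ := h S τ
    exact rem_cube p2 hb0 hc0 hbc p1 B fun P hP => by
      obtain ⟨g1, g2, g3⟩ := (hBm P).1 hP
      exact ⟨g1, ndvd_DX (rho_pq g1).prime g2 g3 S.1 τ⟩
  choose L hL using key
  refine ⟨fun s => ∏ q : Idx m × ∀ t, Cl (n t), if (m - 3) / 2 + ∑ t, sh (q.2 t) + 1 = i then
    L q.1 (fun t => ty (q.2 t)) (s - (((m - 3) / 2 + ∑ t, sh (q.2 t) : ℕ) : ℂ)) else 1,
    ?_, ?_, fun s hs => ?_⟩
  · refine Differentiable.fun_finsetProd fun q _ => ?_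
    split_ifs
    · exact (hL q.1 fun t => ty (q.2 t)).1.comp (differentiable_id.sub_const _)
    · exact differentiable_const _
  · refine Finset.prod_ne_zero_iff.2 fun q _ => ?_
    split_ifs with hq
    · have e : (i : ℂ) - (((m - 3) / 2 + ∑ t, sh (q.2 t) : ℕ) : ℂ) = 1 := by
        rw [← hq]
        push_cast
        ring
      rw [e]
      exact (hL q.1 fun t => ty (q.2 t)).2.1
    · exact one_ne_zero
  · have h1 : HasProd (fun P : {P // P ∉ B} =>
        ∏ q : Idx m × ∀ t, Cl (n t), if (m - 3) / 2 + ∑ t, sh (q.2 t) + 1 = i then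
          (fac (DX a b q.1.1 fun t => ty (q.2 t))
            (s - (((m - 3) / 2 + ∑ t, sh (q.2 t) : ℕ) : ℂ)) P.1)⁻¹ else 1)
        (∏ q : Idx m × ∀ t, Cl (n t), if (m - 3) / 2 + ∑ t, sh (q.2 t) + 1 = i then
          L q.1 (fun t => ty (q.2 t)) (s - (((m - 3) / 2 + ∑ t, sh (q.2 t) : ℕ) : ℂ)) else 1) := by
      refine hasProd_prod fun q _ => ?_
      by_cases hq : (m - 3) / 2 + ∑ t, sh (q.2 t) + 1 = i
      · simp only [if_pos hq]
        refine (hL q.1 fun t => ty (q.2 t)).2.2 _ ?_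
        rw [Complex.sub_re, Complex.natCast_re]
        have e : (i : ℝ) = (((m - 3) / 2 + ∑ t, sh (q.2 t) : ℕ) : ℝ) + 1 := by
          rw [← hq]
          push_cast
          ring
        rw [e] at hs
        linarith
      · simp only [if_neg hq]
        exact hasProd_one
    have h2 := (Equiv.hasProd_iff (Equiv.subtypeEquivRight fun P => (hBm P).symm)
      (f := fun P : {P // P ∉ B} => ∏ q : Idx m × ∀ t, Cl (n t),
        if (m - 3) / 2 + ∑ t, sh (q.2 t) + 1 = i then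
          (fac (DX a b q.1.1 fun t => ty (q.2 t))
            (s - (((m - 3) / 2 + ∑ t, sh (q.2 t) : ℕ) : ℂ)) P.1)⁻¹ else 1)).2 h1
    refine h2.congr_fun fun P => ?_
    exact eX_prod a b i P.1 s

variable {m r : ℕ} {n : Fin r → ℕ} (a : Fin m → 𝓞 K) (b : ∀ t : Fin r, Fin (n t) → 𝓞 K)

/-- **all the codimensions** -/
theorem allY (hm : m = 3 ∨ m = 5 ∨ m = 7) (hn : ∀ t, n t = 2 ∨ n t = 4) (ha : ∀ i, a i ≠ 0)
    (hb : ∀ t i, b t i ≠ 0) (h : ZY j (fun i => j.symm (a i)) (fun t i => j.symm (b t i))) :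
    AllCodim a b := by
  have hi : ∀ x : 𝓞 K, x ≠ 0 → j.symm x ≠ 0 := fun x hx h => hx (by
    rw [← j.apply_symm_apply x, h, map_zero])
  refine ⟨fun S τ => ?_, IX m n, inferInstance, dg,
    fun v => eX (fun i => j.symm (a i)) (fun t i => j.symm (b t i)) ((eK j).symm v),
    fun v hv => frobX j a b hm hn v hv, fun i => ?_⟩
  · obtain ⟨d, b', c', ⟨-, -, p3⟩, p4, hb0, hc0, hbc⟩ := h S τ
    have hj0 : ∀ x : Ei, x ≠ 0 → ((j x : 𝓞 K) : K) ≠ 0 := by
      intro x hx h0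
      have h1 : j x = 0 := by exact_mod_cast h0
      exact hx (j.injective (by rw [h1, map_zero]))
    have h2 : DX (fun i => j.symm (a i)) (fun t i => j.symm (b t i)) S.1 τ = j.symm (DX a b S.1 τ) :=
      DX_map (j.symm : 𝓞 K →+* Ei) a b S.1 τ
    rw [h2] at hbc
    have h3 := congrArg (fun x => ((j x : 𝓞 K) : K)) hbc
    simp only [map_mul, map_pow, RingEquiv.apply_symm_apply] at h3
    refine fin_twist (t := ((j c' : 𝓞 K) : K) / ((j b' : 𝓞 K) : K))
      (div_ne_zero (hj0 _ hc0) (hj0 _ hb0)) (hj0 _ p3) ?_ p4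
    have h4 : ((j b' : 𝓞 K) : K) ^ 3 ≠ 0 := pow_ne_zero 3 (hj0 _ hb0)
    rw [div_pow, div_mul_eq_mul_div, eq_div_iff h4, mul_comm]
    exact h3
  · obtain ⟨L, h1, h2, h3⟩ := famY j (fun i => j.symm (a i)) (fun t i => j.symm (b t i))
      (fun i => hi _ (ha i)) (fun t i => hi _ (hb t i)) h i
    refine ⟨L, h1, h2, fun s hs => ?_⟩
    have h4 := h3 s hs
    have e2 : ∀ P : HeightOneSpectrum Ei, (Ideal.absNorm (eK j P).asIdeal : ℂ) = Np P := by
      intro P
      have h0 : (eK j P) = pK j P := rfl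
      unfold Np
      rw [← nm_P j P, h0]
      push_cast
      rfl
    have h6 := (Equiv.hasProd_iff ((eK j).subtypeEquiv
      (p := GPX (fun i => j.symm (a i)) (fun t i => j.symm (b t i))) (q := Gdx a b)
      (gdx_iff j a b hm))
      (f := fun v : {v // Gdx a b v} => ∏ q ∈ Finset.univ.filter
        (fun q : IX m n => dg q + 1 = 2 * i),
        (1 - eX (fun i => j.symm (a i)) (fun t i => j.symm (b t i)) ((eK j).symm v.1) q *
          (Ideal.absNorm v.1.asIdeal : ℂ) ^ (-s))⁻¹) (a := L s)).1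
    apply h6
    refine h4.congr_fun fun P => ?_
    show ∏ q ∈ Finset.univ.filter (fun q : IX m n => dg q + 1 = 2 * i),
        (1 - eX (fun i => j.symm (a i)) (fun t i => j.symm (b t i)) ((eK j).symm (eK j P.1)) q *
          (Ideal.absNorm (eK j P.1).asIdeal : ℂ) ^ (-s))⁻¹ = _
    rw [Equiv.symm_apply_apply, e2]

end K

end Pool.Agent.H451.OP
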