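import Mathlib
import Pool.Agent.H451.OP.P5
import Pool.Agent.H451.JB.Sel
import Pool.Agent.H462.CTU.Crit0
import Pool.Graph.R_seed8.Y667.BKP.Def

/-!
# The `3`-primary part of the Tate-Shafarevich group of a twist by a cube
-/

set_option autoImplicit false
set_option linter.unusedSectionVars false
set_option linter.unusedVariables false

open scoped Classical

namespace Pool.Agent.H451.OP

open NumberField IsDedekindDomain WeierstrassCurve
open Pool.Agent.Y692.QS (Ei w toC)
open Pool.Agent.Y703.CT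
open Pool.Agent.Y715.T.Gi Pool.Agent.Y715.T.Nr Pool.Agent.Y715.T.Df Pool.Agent.Y715.T.Ell
open Pool.Agent.TH841.NF.D (Sha)
open Pool.Agent.Y696.CTK
open Pool.Agent.XL6
open Pool.Agent.H451.JB (tw_cube)
open Pool.Agent.H462.CTU.LK (Dk)
open Pool.Agent.H462.CTU.Sel (KW KerC)
open Pool.Agent.H462.JL (bad CorG cor_data kz KW_zero kerC_of ker_of)

section
variable {K : Type} [Field K] [NumberField K] (j : Ei ≃+* 𝓞 K)

/-- **a twist by a cube of an element of corank zero** -/
theorem ariC {z κ : Ei} (hz : ¬ bad z) (hu : ¬ IsUnit z) (hr : CorG z 0) (hκ : κ ≠ 0) :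
    Finite (ED (j (κ ^ 3 * z) : K)).toAffine.Point ∧
      ∀ (n : ℕ) (x : Sha (ED (j (κ ^ 3 * z) : K))), 3 ^ n • x = 0 → x = 0 := by
  obtain ⟨k, J, _, _, π, e, hdt, hDk, hG, h9⟩ := cor_data hz hu hr
  have hne : κ ^ 3 * z ≠ 0 := mul_ne_zero (pow_ne_zero 3 hκ) (hDk.ne hdt)
  by_cases hk : k = 0
  · subst hk
    have hG' : (KerV π e).ncard = 3 := by
      have h1 : kz 0 = 1 := rfl
      rw [KW_zero, h1] at hG
      omega
    have h9' := h9 rfl
    have hK := ker_of hG'
    exact ⟨(parts.mwt parts.trf K j _ hne fun i₀ hi u a hT => by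
        obtain ⟨u', hT'⟩ := Pool.Agent.H462.CTU.Crit0.tw_neg hDk (tw_cube hκ hT)
        exact (descK hdt hK h9' hT').2).1,
      parts.sht parts.trf K j _ hne fun i₀ hi u a hT => by
        obtain ⟨u', hT'⟩ := Pool.Agent.H462.CTU.Crit0.tw_neg hDk (tw_cube hκ hT)
        exact (descK hdt hK h9' hT').1⟩
  · have hKW : (KW k π e).ncard = 3 := by
      have h1 : kz k = 0 := if_neg hk
      rw [hG, h1]
      norm_num
    have hK := kerC_of hKW
    exact ⟨(parts.mwt parts.trf K j _ hne fun i₀ hi u a hT =>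
        (Pool.Agent.H462.CTU.Crit.desc hk hdt hDk hK (tw_cube hκ hT)).2).1,
      parts.sht parts.trf K j _ hne fun i₀ hi u a hT =>
        (Pool.Agent.H462.CTU.Crit.desc hk hdt hDk hK (tw_cube hκ hT)).1⟩

end

end Pool.Agent.H451.OP
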