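import Mathlib
import Pool.Agent.H451.OP.P6
import Pool.Agent.H451.OP.P7
import Pool.Agent.H451.OP.P8
import Pool.Graph.R_seed8.Y667.BKP.Def

/-!
# The law over `K`, with the data
-/

set_option autoImplicit false
set_option linter.unusedSectionVars false
set_option linter.unusedVariables false

open scoped Classical
open Finset Filter

namespace Pool.Agent.H451.OP

open NumberField IsDedekindDomain WeierstrassCurve
open Pool.Agent.Y692.QS (Ei w nr nr_mul)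
open Pool.Agent.Y703.CT
open Pool.Agent.Y703.XL (cr)
open Pool.Agent.Y715.T.RecG (Pq)
open Pool.Agent.Y699.E (PD mem_PD PS nrm prm)
open Pool.Agent.Y696.CTK (ED)
open Pool.Agent.H451.BB (PL)
open Pool.Agent.H462.CTU.Chr (nq)
open Pool.Agent.H462.CTU.K (AK AK_iff)
open Pool.Agent.H462.CTU.Law.Cou (un un_nr un_inj un_isUnit un_ne exists_un el_inj A0 ct ct_congr
  exists_el)
open Pool.Agent.H462.JL (pe prm_pe sg sg_zero sg_inj bad tw CorG cor_unique AR cop cop_un SR mem_SR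
  KK ee nJ cor_ex' law_G law_all InG badK badK_iff bsK cellsK oneG ar_low share_G)

/-- **The law over `K`**, with the data. -/
theorem absG (K : Type) [Field K] [NumberField K] [IsCyclotomicExtension {3} ℚ K]
    (j : Ei ≃+* 𝓞 K) (hj : ∀ z : Ei, Algebra.norm ℤ (j z) = nr z)
    {I : Type} [Fintype I] (Z : I → Ei) (E : I → ℕ) (P : Ei) (hP : ¬ (3 : ℤ) ∣ nr P)
    (hZ : ∀ i, ¬ (3 : ℤ) ∣ nr (Z i)) (hZP : ∀ i ρ, Prime ρ → ρ ∣ Z i → ρ ∣ P)
    (hE : ∀ i, E i % 3 ≠ 0) :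
    (∀ X : ℕ, {D : 𝓞 K | Algebra.norm ℤ D ≤ X ∧ AdO (j P) D}.Finite) ∧
    (∃ c : ℝ, 0 < c ∧ ∃ X₀ : ℕ, ∀ X : ℕ, X₀ ≤ X →
      c * X ≤ ({D : 𝓞 K | Algebra.norm ℤ D ≤ X ∧ AdO (j P) D}.ncard : ℝ)) ∧
    cellsK (fun i => j (Z i)) (mm E) ≤ 9 ∧
    cellsK (fun i => j (Z i)) (mm E) ≤
      (Set.range fun i => {l | Same (mm E i) (Z i) (mm E l) (Z l)}).ncard ∧
    Tendsto (fun X : ℕ => ({D : 𝓞 K | Algebra.norm ℤ D ≤ X ∧ AdO (j P) D ∧
        CdO (fun i => j (Z i)) E D}.ncard : ℝ) /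
      ({D : 𝓞 K | Algebra.norm ℤ D ≤ X ∧ AdO (j P) D}.ncard : ℝ)) atTop
      (nhds ((9 - cellsK (fun i => j (Z i)) (mm E)) / 9)) ∧
    ∃ ν : 𝓞 K → I → ℕ,
      (∀ D, AdO (j P) D → CdO (fun i => j (Z i)) E D → ∀ i, ∃ z κ : Ei,
        ¬ bad z ∧ ¬ IsUnit z ∧ CorG z (ν D i) ∧ κ ≠ 0 ∧ Z i * (j.symm D) ^ E i = κ ^ 3 * z) ∧
      (∀ D, AdO (j P) D → ∀ i l, Same (mm E i) (Z i) (mm E l) (Z l) → ν D i = ν D l) ∧
      (∀ T : Finset I, (∀ i ∈ T, ∀ l ∈ T, i ≠ l → ¬ Same (mm E i) (Z i) (mm E l) (Z l)) →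
        ∀ ρ : I → ℕ, (cellsK (fun i => j (Z i)) (mm E) < 9 →
          Tendsto (fun X : ℕ => ({D : 𝓞 K | Algebra.norm ℤ D ≤ X ∧ AdO (j P) D ∧
            CdO (fun i => j (Z i)) E D ∧ ∀ i ∈ T, ν D i = ρ i}.ncard : ℝ) /
          ({D : 𝓞 K | Algebra.norm ℤ D ≤ X ∧ AdO (j P) D ∧
            CdO (fun i => j (Z i)) E D}.ncard : ℝ)) atTop (nhds (∏ i ∈ T, cr (ρ i))))) ∧
      Tendsto (fun X : ℕ => ({D : 𝓞 K | Algebra.norm ℤ D ≤ X ∧ AdO (j P) D ∧
            CdO (fun i => j (Z i)) E D ∧ ∀ i, ν D i = 0}.ncard : ℝ) /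
          ({D : 𝓞 K | Algebra.norm ℤ D ≤ X ∧ AdO (j P) D}.ncard : ℝ)) atTop
          (nhds ((9 - cellsK (fun i => j (Z i)) (mm E)) / 9 *
            cr 0 ^ (Set.range fun i => {l | Same (mm E i) (Z i) (mm E l) (Z l)}).ncard)) := by
  have hP0 := not3_ne hP
  have hpq : ∀ ρ ∈ PD P, Pq ρ := fun ρ hρ => ((mem_PD hP0).1 hρ).1
  obtain ⟨c, q, f, hD⟩ := exists_dat (Z := Z) (E := E) (R := PD P) hpq hZ
    (fun i ρ hρ hd => (mem_PD hP0).2 ⟨hρ, hZP i ρ hρ.prime hd⟩) hE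
  obtain ⟨T₀, hT1, hT2, hT3⟩ := exists_T Z E
  have hcell : cellsK (fun i => j (Z i)) (mm E) =
      (univ.image fun i => (sg (mm E i) (q i).2, sg (mm E i) (nq (pe (PD P) (f i))))).card := by
    rw [cells_Z hD j hj, cells_A hD j hj]
  have hcard := card_GG (q := q) (R := PD P) (f := f) (mm E)
  rw [← hcell] at hcard
  have hle := cells_le hD hT3
  rw [← hcell, hT1] at hle
  have hc9 : (((GG q (PD P) f (mm E)).card : ℕ) : ℝ) = 9 - cellsK (fun i => j (Z i)) (mm E) := by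
    have h : (((GG q (PD P) f (mm E)).card : ℕ) : ℝ) + cellsK (fun i => j (Z i)) (mm E) = 9 := by
      exact_mod_cast hcard
    linarith
  have e3 : ∀ D : Ei, AR (PD P) D → ¬ (3 : ℤ) ∣ nr D := fun D h => h.1.2
  have eA : ∀ X : ℕ, {D : 𝓞 K | Algebra.norm ℤ D ≤ X ∧ AdO (j P) D}.ncard =
      {D : Ei | nr D ≤ X ∧ AR (PD P) D}.ncard :=
    fun X => Pool.Agent.Y696.XK.img_ncard j hj X (AR (PD P)) (AdO (j P))
      fun D => (AdO_iff j hj hP D).symm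
  have eC : ∀ X : ℕ, {D : 𝓞 K | Algebra.norm ℤ D ≤ X ∧ AdO (j P) D ∧
        CdO (fun i => j (Z i)) E D}.ncard =
      {D : Ei | nr D ≤ X ∧ AR (PD P) D ∧ CF (AA q (PD P) f) (mm E) D}.ncard := fun X =>
    Pool.Agent.Y696.XK.img_ncard j hj X (fun D => AR (PD P) D ∧ CF (AA q (PD P) f) (mm E) D)
      (fun D => AdO (j P) D ∧ CdO (fun i => j (Z i)) E D) fun D => by
        rw [AdO_iff j hj hP D]
        exact and_congr_right fun h => (CdO_iff hD j hj (e3 D h)).symm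
  obtain ⟨ν, hν⟩ : ∃ ν : 𝓞 K → I → ℕ, ν = fun D i => nu (tw (mm E i) (AA q (PD P) f i) (j.symm D)) :=
    ⟨_, rfl⟩
  have eR : ∀ (X : ℕ) (T : Finset I) (ρ : I → ℕ), {D : 𝓞 K | Algebra.norm ℤ D ≤ X ∧ AdO (j P) D ∧
        CdO (fun i => j (Z i)) E D ∧ ∀ i ∈ T, ν D i = ρ i}.ncard =
      {D : Ei | nr D ≤ X ∧ AR (PD P) D ∧ CF (AA q (PD P) f) (mm E) D ∧
        ∀ i ∈ T, nu (tw (mm E i) (AA q (PD P) f i) D) = ρ i}.ncard := by
    intro X T ρ
    refine Pool.Agent.Y696.XK.img_ncard j hj X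
      (fun D => AR (PD P) D ∧ CF (AA q (PD P) f) (mm E) D ∧
        ∀ i ∈ T, nu (tw (mm E i) (AA q (PD P) f i) D) = ρ i)
      (fun D => AdO (j P) D ∧ CdO (fun i => j (Z i)) E D ∧ ∀ i ∈ T, ν D i = ρ i) fun D => ?_
    rw [AdO_iff j hj hP D]
    refine and_congr_right fun h => ?_
    rw [CdO_iff hD j hj (e3 D h), hν]
    simp only [RingEquiv.symm_apply_apply]
  have hsame : ∀ D, AdO (j P) D → ∀ i l, Same (mm E i) (Z i) (mm E l) (Z l) → ν D i = ν D l := by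
    intro D h1 i l h2
    obtain ⟨z, rfl⟩ := j.surjective D
    rw [hν]
    dsimp only
    rw [RingEquiv.symm_apply_apply]
    exact nu_same hD h2 ((AdO_iff j hj hP z).1 h1)
  refine ⟨fun X => ?_, ?_, ?_, hle, ?_, ν, ?_, hsame, ?_, ?_⟩
  · have h1 : {D : Ei | nr D ≤ X}.Finite :=
      (Pool.Agent.Y699.E.fin_norm_le X).subset fun D hD => Pool.Agent.Y699.E.nr_le.1 hD
    refine (h1.image j).subset ?_
    rintro D ⟨h2, -⟩
    obtain ⟨z, rfl⟩ := j.surjective D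
    rw [hj] at h2
    exact ⟨z, h2, rfl⟩
  · obtain ⟨c, hc, X₀, h⟩ := ar_low hpq
    exact ⟨c, hc, X₀, fun X hX => by rw [eA]; exact h X hX⟩
  · omega
  · have h := share_F (mm E) (fm hD)
    rw [hc9] at h
    simp only [eA, eC]
    exact h
  · intro D h1 h2 i
    obtain ⟨z, rfl⟩ := j.surjective D
    have h1' : AR (PD P) z := (AdO_iff j hj hP z).1 h1
    have h2' : CF (AA q (PD P) f) (mm E) z := (CdO_iff hD j hj (e3 z h1')).1 h2
    obtain ⟨r, hr⟩ := ex_cor hD i h1' h2'.1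
    have hbad := h2'.2 i
    have hu := tw_unit (b := mm E i) (x := AA q (PD P) f i) h2'.1
    have hνr : ν (j z) i = r := by
      rw [hν]
      dsimp only
      rw [RingEquiv.symm_apply_apply]
      exact nu_eq hr
    rw [RingEquiv.symm_apply_apply, hνr]
    exact ⟨_, _, hbad, hu, hr, not3_ne (not3_mul (hD.three i) (not3_pow (e3 z h1') _)),
      form_tw hD i z⟩
  · intro T hT ρ h9
    simp only [eR, eC]
    refine (law_T hD T hT ρ).1 ?_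
    rw [← Finset.card_pos]
    omega
  · have h := (law_T hD T₀ hT2 fun _ => 0).2
    rw [hc9, Finset.prod_const, hT1] at h
    simp only [eA]
    refine h.congr fun X => ?_
    congr 2
    rw [← eR X T₀ fun _ => 0]
    congr 1
    ext D
    constructor
    · rintro ⟨h1, h2, h3, h4⟩
      refine ⟨h1, h2, h3, fun i => ?_⟩
      obtain ⟨t, ht, h5⟩ := hT3 i
      rw [← hsame D h2 t i h5]
      exact h4 t ht
    · rintro ⟨h1, h2, h3, h4⟩
      exact ⟨h1, h2, h3, fun i _ => h4 i⟩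

end Pool.Agent.H451.OP
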