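import Mathlib
import Pool.Agent.H451.OP.P9
import Pool.Agent.H451.OP.Def3
import Pool.Graph.R_seed8.Y667.BKP.Main

/-!
# The cubic twists of the products of diagonal cubics: the Abel-Jacobi maps at three
-/

set_option autoImplicit false
set_option linter.unusedSectionVars false
set_option linter.unusedVariables false

open scoped Classical
open Finset Filter

namespace Pool.Agent.H451.OP

open NumberField IsDedekindDomain WeierstrassCurve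
open Pool.Agent.Y692.QS (Ei w nr nr_mul)
open Pool.Agent.Y703.XL (cr)
open Pool.Agent.Y715.T.Gi (lam prime_lam nr_lam lam_sq)
open Pool.Agent.H451.XP
open Pool.Agent.H451.CubT (DS E)
open Pool.Agent.H451.TB (prob)
open Pool.Agent.H462.CTU.K (AK AK_iff)
open Pool.Agent.H462.JL (bsK cellsK badK bad CorG)
open Pool.Agent.TH841.NF.D (Sha)

/-- **The Abel-Jacobi maps at three of the cubic twists of a product of diagonal cubics.** -/
theorem final_OP3 (K : Type) [Field K] [NumberField K] [IsCyclotomicExtension {3} ℚ K] (m : ℕ)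
    (hm : m = 3 ∨ m = 5 ∨ m = 7) (r : ℕ) (n : Fin r → ℕ) (hn : ∀ t, n t = 2 ∨ n t = 4)
    (a : Fin m → 𝓞 K) (b : ∀ t : Fin r, Fin (n t) → 𝓞 K)
    (ha : ∀ i, ¬ (3 : ℤ) ∣ Algebra.norm ℤ (a i))
    (hb : ∀ t i, ¬ (3 : ℤ) ∣ Algebra.norm ℤ (b t i)) (i₀ : Fin m) :
    (∀ D : 𝓞 K, MotX (Tw.twist a i₀ D) b) ∧
    ((∀ X : ℕ, (Tw.All a b X).Finite) ∧ ∃ c : ℝ, 0 < c ∧ ∃ X₀ : ℕ, ∀ X : ℕ, X₀ ≤ X →
      c * X ≤ ((Tw.All a b X).ncard : ℝ)) ∧
    (Tw.cells a b i₀ ≤ 9 ∧ Tw.cells a b i₀ ≤ Tw.classes a b i₀ ∧ 1 ≤ Tw.classes a b i₀ ∧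
      Tw.classes a b i₀ ≤ m.choose ((m - 3) / 2) * ∏ t, (1 + (n t).choose (n t / 2))) ∧
    Tendsto (fun X : ℕ => ((Tw.Cls a b i₀ X).ncard : ℝ) / ((Tw.All a b X).ncard : ℝ)) atTop
      (nhds ((9 - Tw.cells a b i₀) / 9)) ∧
    (∃ G : Set (𝓞 K), (∀ D ∈ G, (∃ X : ℕ, D ∈ Tw.Cls a b i₀ X) ∧
        Tw.IsoAtThree (Tw.twist a i₀ D) b) ∧
      Tendsto (fun X : ℕ => ({D | D ∈ Tw.All a b X ∧ D ∈ G}.ncard : ℝ) /
        ((Tw.All a b X).ncard : ℝ)) atTop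
        (nhds ((9 - Tw.cells a b i₀) / 9 * prob 0 ^ Tw.classes a b i₀))) ∧
    ∃ X₀ : ℕ, ∀ X : ℕ, X₀ ≤ X →
      (9 - Tw.cells a b i₀) / 9 * 0.639 ^ Tw.classes a b i₀ * ((Tw.All a b X).ncard : ℝ) ≤
        ({D | D ∈ Tw.All a b X ∧ Tw.IsoAtThree (Tw.twist a i₀ D) b}.ncard : ℝ) := by
  obtain ⟨⟨j, hj⟩, -⟩ := Pool.Agent.Y455.CTK.jex K
  obtain ⟨Z, hZ⟩ : ∃ Z : Tw.Ind m n → Ei, Z = fun q => j.symm (DX a b q.1.1 q.2) := ⟨_, rfl⟩
  obtain ⟨P, hP⟩ : ∃ P : Ei, P = j.symm ((∏ i, a i) * ∏ t, ∏ i, b t i) := ⟨_, rfl⟩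
  have hjZ : ∀ q, j (Z q) = DX a b q.1.1 q.2 := by
    intro q
    rw [hZ]
    exact j.apply_symm_apply _
  have hjP : j P = (∏ i, a i) * ∏ t, ∏ i, b t i := by
    rw [hP]
    exact j.apply_symm_apply _
  have hns : ∀ x : 𝓞 K, nr (j.symm x) = Algebra.norm ℤ x := by
    intro x
    rw [← hj, j.apply_symm_apply]
  have hla : ∀ x : 𝓞 K, lam ∣ j.symm x ↔ (3 : ℤ) ∣ Algebra.norm ℤ x := by
    intro x
    rw [lam_iff, hns]
  have hDX : ∀ q : Tw.Ind m n, DX (fun i => j.symm (a i)) (fun t i => j.symm (b t i)) q.1.1 q.2 =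
      Z q := by
    intro q
    rw [hZ]
    exact DX_map (j.symm : 𝓞 K →+* Ei) a b q.1.1 q.2
  have hZ3 : ∀ q, ¬ (3 : ℤ) ∣ nr (Z q) := by
    intro q h
    rw [← lam_iff, ← hDX] at h
    exact ndvd_DX prime_lam (fun i h1 => ha i ((hla _).1 h1)) (fun t i h1 => hb t i ((hla _).1 h1))
      _ _ h
  have hPs : P = (∏ i, j.symm (a i)) * ∏ t, ∏ i, j.symm (b t i) := by
    rw [hP, map_mul, map_prod, map_prod]
    simp only [map_prod]
  have hP3 : ¬ (3 : ℤ) ∣ nr P := by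
    intro h
    rw [← lam_iff, hPs] at h
    rcases prime_lam.dvd_or_dvd h with h | h
    · obtain ⟨i, -, h1⟩ := (prime_lam.dvd_finsetProd_iff _).1 h
      exact ha i ((hla _).1 h1)
    · obtain ⟨t, -, h1⟩ := (prime_lam.dvd_finsetProd_iff _).1 h
      obtain ⟨i, -, h2⟩ := (prime_lam.dvd_finsetProd_iff _).1 h1
      exact hb t i ((hla _).1 h2)
  have hZP : ∀ q ρ, Prime ρ → ρ ∣ Z q → ρ ∣ P := by
    intro q ρ hρ hd
    by_contra hn
    rw [hPs] at hn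
    rw [← hDX] at hd
    refine ndvd_DX hρ (fun i h1 => hn ?_) (fun t i h1 => hn ?_) _ _ hd
    · exact (h1.trans (dvd_prod_of_mem (fun i => j.symm (a i)) (mem_univ i))).mul_right _
    · exact ((h1.trans (dvd_prod_of_mem (fun i => j.symm (b t i)) (mem_univ i))).trans
        (dvd_prod_of_mem (fun t => ∏ i, j.symm (b t i)) (mem_univ t))).mul_left _
  obtain ⟨c1, c2, c3, c4, c5, ν, c6, c7, c8, c9⟩ := absG K j hj Z (EE m n i₀) P hP3 hZ3 hZP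
    (EE_ne m n i₀)
  -- the dictionary
  have dA : ∀ D : 𝓞 K, AdO (j P) D ↔ Tw.Adm a b D := by
    intro D
    unfold AdO Tw.Adm AK
    rw [hjP, IsCoprime.mul_left_iff, IsCoprime.prod_left_iff, IsCoprime.prod_left_iff, and_assoc]
    simp only [IsCoprime.prod_left_iff, mem_univ, true_implies]
  have dC : ∀ D : 𝓞 K, CdO (fun q => j (Z q)) (EE m n i₀) D ↔
      (¬ IsUnit D ∧ ∀ q : Tw.Ind m n, ¬ Tw.Excluded (DX (Tw.twist a i₀ D) b q.1.1 q.2)) := by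
    intro D
    unfold CdO
    refine and_congr_right fun _ => forall_congr' fun q => not_congr ?_
    dsimp only
    rw [hjZ, DX_tw]
    exact Iff.rfl
  have dA' : ∀ X : ℕ, {D : 𝓞 K | Algebra.norm ℤ D ≤ X ∧ AdO (j P) D} = Tw.All a b X := by
    intro X
    ext D
    exact and_congr_right fun _ => dA D
  have dC' : ∀ X : ℕ, {D : 𝓞 K | Algebra.norm ℤ D ≤ X ∧ AdO (j P) D ∧
      CdO (fun q => j (Z q)) (EE m n i₀) D} = Tw.Cls a b i₀ X := by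
    intro X
    ext D
    constructor
    · rintro ⟨h1, h2, h3⟩
      exact ⟨⟨h1, (dA D).1 h2⟩, (dC D).1 h3⟩
    · rintro ⟨⟨h1, h2⟩, h3⟩
      exact ⟨h1, (dA D).2 h2, (dC D).2 h3⟩
  have dR : ∀ (X : ℕ) (p : 𝓞 K → Prop), {D : 𝓞 K | Algebra.norm ℤ D ≤ X ∧ AdO (j P) D ∧
      CdO (fun q => j (Z q)) (EE m n i₀) D ∧ p D} = {D | D ∈ Tw.Cls a b i₀ X ∧ p D} := by
    intro X p
    ext D
    constructor
    · rintro ⟨h1, h2, h3, h4⟩
      exact ⟨⟨⟨h1, (dA D).1 h2⟩, (dC D).1 h3⟩, h4⟩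
    · rintro ⟨⟨⟨h1, h2⟩, h3⟩, h4⟩
      exact ⟨h1, (dA D).2 h2, (dC D).2 h3, h4⟩
  have hpar : ∀ q : Tw.Ind m n, bsK (mm (EE m n i₀) q) (j (Z q)) = Tw.par a b i₀ q := by
    intro q
    rw [mm_EE, hjZ]
    unfold bsK Tw.par
    by_cases h : i₀ ∈ q.1.1
    · simp [h]
    · simp [h]
  have hcells : cellsK (fun q => j (Z q)) (mm (EE m n i₀)) = Tw.cells a b i₀ := by
    unfold cellsK Tw.cells
    simp only [hpar]
  have hpar' : ∀ q : Tw.Ind m n, j (bs (mm (EE m n i₀) q) (Z q)) = Tw.par a b i₀ q := by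
    intro q
    rw [← hpar]
    unfold bs bsK
    split_ifs
    · rw [map_pow]
    · rfl
  have dS : ∀ q q' : Tw.Ind m n, Same (mm (EE m n i₀) q) (Z q) (mm (EE m n i₀) q') (Z q') ↔
      Tw.SameClass (Tw.par a b i₀ q) (Tw.par a b i₀ q') := by
    intro q q'
    rw [← same_iff (hZ3 q) (hZ3 q'), ← hpar', ← hpar']
    constructor
    · rintro ⟨u, v, hu, hv, h⟩
      refine ⟨j u, j v, (map_ne_zero_iff j j.injective).2 hu, (map_ne_zero_iff j j.injective).2 hv, ?_⟩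
      rw [← map_pow, ← map_pow, ← map_mul, ← map_mul, h]
    · rintro ⟨u, v, hu, hv, h⟩
      refine ⟨j.symm u, j.symm v, (map_ne_zero_iff j.symm j.symm.injective).2 hu,
        (map_ne_zero_iff j.symm j.symm.injective).2 hv, ?_⟩
      apply j.injective
      rw [map_mul, map_mul, map_pow, map_pow, j.apply_symm_apply, j.apply_symm_apply, h]
  have hN : (Set.range fun i => {l | Same (mm (EE m n i₀) i) (Z i) (mm (EE m n i₀) l) (Z l)}).ncard =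
      Tw.classes a b i₀ := by
    unfold Tw.classes
    congr 1
    congr 1
    funext q
    ext q'
    exact dS q q'
  rw [hcells] at c3 c4 c5 c9
  rw [hN] at c4 c9
  simp only [dA', dC'] at c1 c2 c5 c8
  simp only [dR] at c8
  simp only [dA', dR] at c9
  -- nonempty
  have hne : Nonempty (Tw.Ind m n) := by
    have h1 : Nonempty (Idx m) := by
      obtain ⟨S, -, hS⟩ := Finset.exists_subset_card_eq (s := (univ : Finset (Fin m)))
        (n := (m - 3) / 2) (by rw [card_univ, Fintype.card_fin]; omega)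
      exact ⟨⟨S, hS⟩⟩
    obtain ⟨S⟩ := h1
    exact ⟨(S, fun _ => none)⟩
  have hN1 : 1 ≤ Tw.classes a b i₀ := by
    unfold Tw.classes
    obtain ⟨q⟩ := hne
    exact (Set.ncard_pos (Set.toFinite _)).2 ⟨_, q, rfl⟩
  have hN2 : Tw.classes a b i₀ ≤ m.choose ((m - 3) / 2) * ∏ t, (1 + (n t).choose (n t / 2)) := by
    rw [← card_q]
    unfold Tw.classes
    rw [← Set.image_univ]
    refine (Set.ncard_image_le Set.finite_univ).trans ?_
    rw [Set.ncard_univ, Nat.card_eq_fintype_card]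
  have hcp : cr = prob := rfl
  rw [hcp] at c9
  simp only [hcp] at c8
  have key : ∀ (X : ℕ), ∀ D ∈ Tw.Cls a b i₀ X, (∀ q, ν D q = 0) →
      Tw.IsoAtThree (Tw.twist a i₀ D) b := by
    intro X D hD h0
    obtain ⟨⟨h1, h2⟩, h3⟩ := hD
    have h4 : ∀ (S : Idx m) (τ : ∀ t, Ty (n t)),
        Finite (E ((DX (Tw.twist a i₀ D) b S.1 τ : 𝓞 K) : K)).toAffine.Point ∧
        ∀ (k : ℕ) (x : Sha (E ((DX (Tw.twist a i₀ D) b S.1 τ : 𝓞 K) : K))),
          3 ^ k • x = 0 → x = 0 := by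
      intro S τ
      obtain ⟨z, κ, g1, g2, g3, g4, g5⟩ := c6 D ((dA D).2 h2) ((dC D).2 h3) (S, τ)
      rw [h0] at g3
      have h5 := ariC (K := K) j g1 g2 g3 g4
      have e : j (κ ^ 3 * z) = DX (Tw.twist a i₀ D) b S.1 τ := by
        rw [← g5, map_mul, map_pow, j.apply_symm_apply, hjZ, DX_tw]
        rfl
      rw [e] at h5
      exact h5
    refine ⟨fun S τ => (h4 S τ).1, fun S τ => (h4 S τ).2, fun S τ => ?_⟩
    refine Pool.Agent.Y667.BKP.h1f_zero Nat.prime_three (h4 S τ).1 0 fun k x hx => ?_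
    rw [pow_zero, one_smul]
    exact (h4 S τ).2 k x hx
  have hp0 : (0.639 : ℝ) < prob 0 := by
    have h1 : prob 0 = Pool.Agent.Y703.XK.c9 := by
      unfold prob
      rw [range_zero, prod_empty, div_one]
      rfl
    rw [h1]
    exact Pool.Agent.Y703.XL.t_C9.2.2.2.1
  have hG : ∀ X : ℕ, {D | D ∈ Tw.All a b X ∧ D ∈ {D : 𝓞 K | (∃ Y : ℕ, D ∈ Tw.Cls a b i₀ Y) ∧
      ∀ q, ν D q = 0}} = {D | D ∈ Tw.Cls a b i₀ X ∧ ∀ q, ν D q = 0} := by
    intro X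
    ext D
    constructor
    · rintro ⟨h1, ⟨Y, h2⟩, h3⟩
      exact ⟨⟨h1, h2.2⟩, h3⟩
    · rintro ⟨h1, h2⟩
      exact ⟨h1.1, ⟨X, h1⟩, h2⟩
  refine ⟨fun D => motX j hm hn _ _, ⟨c1, c2⟩, ⟨c3, c4, hN1, hN2⟩, c5,
    ⟨{D : 𝓞 K | (∃ Y : ℕ, D ∈ Tw.Cls a b i₀ Y) ∧ ∀ q, ν D q = 0}, ?_, ?_⟩, ?_⟩
  · rintro D ⟨⟨Y, h1⟩, h2⟩
    exact ⟨⟨Y, h1⟩, key Y D h1 h2⟩
  · simp only [hG]
    exact c9
  · have hcl : ((Tw.cells a b i₀ : ℕ) : ℝ) ≤ 9 := by exact_mod_cast c3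
    have hsub : ∀ X : ℕ, ({D | D ∈ Tw.Cls a b i₀ X ∧ ∀ q, ν D q = 0}.ncard : ℝ) ≤
        ({D | D ∈ Tw.All a b X ∧ Tw.IsoAtThree (Tw.twist a i₀ D) b}.ncard : ℝ) := by
      intro X
      have h1 : {D | D ∈ Tw.Cls a b i₀ X ∧ ∀ q, ν D q = 0} ⊆
          {D | D ∈ Tw.All a b X ∧ Tw.IsoAtThree (Tw.twist a i₀ D) b} :=
        fun D hD => ⟨hD.1.1, key X D hD.1 hD.2⟩
      exact_mod_cast Set.ncard_le_ncard h1 ((c1 X).subset fun D hD => hD.1)
    rcases eq_or_lt_of_le hcl with h9 | h9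
    · refine ⟨0, fun X _ => ?_⟩
      rw [h9, sub_self, zero_div, zero_mul, zero_mul]
      exact Nat.cast_nonneg _
    · have hlt : (9 - (Tw.cells a b i₀ : ℝ)) / 9 * 0.639 ^ Tw.classes a b i₀ <
          (9 - (Tw.cells a b i₀ : ℝ)) / 9 * prob 0 ^ Tw.classes a b i₀ := by
        refine mul_lt_mul_of_pos_left ?_ (by linarith)
        exact pow_lt_pow_left₀ hp0 (by norm_num) (by omega)
      have h1 := c9.eventually (lt_mem_nhds hlt)
      obtain ⟨X₀, hX⟩ := eventually_atTop.1 h1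
      refine ⟨X₀, fun X hX' => ?_⟩
      have h2 := hX X hX'
      refine le_trans ?_ (hsub X)
      by_cases h3 : ((Tw.All a b X).ncard : ℝ) = 0
      · rw [h3, mul_zero]
        exact Nat.cast_nonneg _
      · have h4 : (0 : ℝ) < ((Tw.All a b X).ncard : ℝ) :=
          lt_of_le_of_ne (Nat.cast_nonneg _) (Ne.symm h3)
        exact ((lt_div_iff₀ h4).1 h2).le

end Pool.Agent.H451.OP
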